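import Mathlib

/-! Truncation towers in a triangulated category with a t-structure: the filtration argument
which compares `Hom (F, G)` with the maps between the cohomology objects of `F` and `G`. -/

open CategoryTheory Limits Pretriangulated Triangulated

namespace FDim

universe v u

section General

variable {C : Type u} [Category.{v} C] [Preadditive C] [HasZeroObject C] [HasShift C ℤ]
  [∀ n : ℤ, (shiftFunctor C n).Additive] [Pretriangulated C]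

/-- exactness at the shifted middle object -/
lemma coyoneda_exact₂_shift (T : Triangle C) (hT : T ∈ distTriang C) {X : C}
    (f : X ⟶ T.obj₂⟦(1 : ℤ)⟧) (h : f ≫ T.mor₂⟦(1 : ℤ)⟧' = 0) :
    ∃ g : X ⟶ T.obj₁⟦(1 : ℤ)⟧, f = g ≫ T.mor₁⟦(1 : ℤ)⟧' := by
  obtain ⟨g, hg⟩ : ∃ g : X ⟶ T.obj₁⟦(1 : ℤ)⟧,
      f = g ≫ ((1 : ℤ).negOnePow • T.mor₁⟦(1 : ℤ)⟧') :=
    Triangle.coyoneda_exact₂ _ (Triangle.shift_distinguished T hT 1) f (by
      change f ≫ ((1 : ℤ).negOnePow • T.mor₂⟦(1 : ℤ)⟧') = 0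
      rw [Linear.comp_units_smul, h, smul_zero])
  refine ⟨(1 : ℤ).negOnePow • g, ?_⟩
  rw [hg, Linear.comp_units_smul, Linear.units_smul_comp]

variable (t : TStructure C)

/-- A tower of truncation triangles `F j → F (j+1) → B j → F j [1]`, with `B j` pure of
degree `c + j` and `F 0 = 0`. -/
structure Tower (c : ℤ) where
  /-- the truncations -/
  F : ℕ → C
  /-- the graded pieces -/
  B : ℕ → C
  /-- first maps -/
  ι : ∀ j, F j ⟶ F (j + 1)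
  /-- second maps -/
  π : ∀ j, F (j + 1) ⟶ B j
  /-- connecting maps -/
  δ : ∀ j, B j ⟶ (F j)⟦(1 : ℤ)⟧
  dist : ∀ j, Triangle.mk (ι j) (π j) (δ j) ∈ distTriang C
  zero : IsZero (F 0)
  leF : ∀ j : ℕ, t.IsLE (F j) (c + j - 1)
  leB : ∀ j : ℕ, t.IsLE (B j) (c + j)
  geB : ∀ j : ℕ, t.IsGE (B j) (c + j)

variable {t} {c : ℤ}

namespace Tower

lemma ι_π (T : Tower t c) (j : ℕ) : T.ι j ≫ T.π j = 0 :=
  comp_distTriang_mor_zero₁₂ _ (T.dist j)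

lemma π_δ (T : Tower t c) (j : ℕ) : T.π j ≫ T.δ j = 0 :=
  comp_distTriang_mor_zero₂₃ _ (T.dist j)

lemma coy₂ (T : Tower t c) (n : ℕ) {X : C} (f : X ⟶ T.F (n + 1)) (h : f ≫ T.π n = 0) :
    ∃ g : X ⟶ T.F n, f = g ≫ T.ι n :=
  Triangle.coyoneda_exact₂ _ (T.dist n) f h

lemma coy₃ (T : Tower t c) (n : ℕ) {X : C} (f : X ⟶ T.B n) (h : f ≫ T.δ n = 0) :
    ∃ g : X ⟶ T.F (n + 1), f = g ≫ T.π n :=
  Triangle.coyoneda_exact₃ _ (T.dist n) f h

lemma coy₂s (T : Tower t c) (n : ℕ) {X : C} (f : X ⟶ (T.F (n + 1))⟦(1 : ℤ)⟧)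
    (h : f ≫ (T.π n)⟦(1 : ℤ)⟧' = 0) :
    ∃ g : X ⟶ (T.F n)⟦(1 : ℤ)⟧, f = g ≫ (T.ι n)⟦(1 : ℤ)⟧' :=
  coyoneda_exact₂_shift _ (T.dist n) f h

lemma yon₂ (T : Tower t c) (n : ℕ) {Y : C} (f : T.F (n + 1) ⟶ Y) (h : T.ι n ≫ f = 0) :
    ∃ g : T.B n ⟶ Y, f = T.π n ≫ g :=
  Triangle.yoneda_exact₂ _ (T.dist n) f h

lemma yon₃ (T : Tower t c) (n : ℕ) {Y : C} (f : T.B n ⟶ Y) (h : T.π n ≫ f = 0) :
    ∃ g : (T.F n)⟦(1 : ℤ)⟧ ⟶ Y, f = T.δ n ≫ g :=
  Triangle.yoneda_exact₃ _ (T.dist n) f h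

/-- maps into `F n` from low objects are detected in `F (n+1)` -/
lemma uniq_ι (T : Tower t c) (n : ℕ) {X : C} (hX : t.IsLE X (c + n)) (f : X ⟶ T.F n)
    (h : f ≫ T.ι n = 0) : f = 0 := by
  obtain ⟨g, hg⟩ := Triangle.coyoneda_exact₂ _ (inv_rot_of_distTriang _ (T.dist n)) f h
  have h1 : t.IsGE ((T.B n)⟦(-1 : ℤ)⟧) (c + n + 1) := by
    have := T.geB n
    exact t.isGE_shift _ (c + n) (-1) (c + n + 1) (by lia)
  have hg0 : g = 0 := t.zero_of_isLE_of_isGE g (c + n) (c + n + 1) (by lia) hX h1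
  rw [hg, hg0]
  exact zero_comp

/-- maps out of `B n` to high objects are detected on `F (n+1)` -/
lemma uniq_π (T : Tower t c) (n : ℕ) {Y : C} (hY : t.IsGE Y (c + n - 1)) (r : T.B n ⟶ Y)
    (h : T.π n ≫ r = 0) : r = 0 := by
  obtain ⟨g, hg⟩ := T.yon₃ n r h
  have h1 : t.IsLE ((T.F n)⟦(1 : ℤ)⟧) (c + n - 2) := by
    have := T.leF n
    exact t.isLE_shift _ (c + n - 1) 1 (c + n - 2) (by lia)
  have hg0 : g = 0 := t.zero_of_isLE_of_isGE g (c + n - 2) (c + n - 1) (by lia) h1 hY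
  rw [hg, hg0]
  exact comp_zero

/-- the vanishing hypothesis: no `Hom (B i, B' l [1])` for `l + 2 ≤ i` -/
def HVan (S T : Tower t c) : Prop :=
  ∀ i l : ℕ, l + 2 ≤ i → ∀ f : S.B i ⟶ (T.B l)⟦(1 : ℤ)⟧, f = 0

lemma HVan.vanish {S T : Tower t c} (hv : HVan S T) (i : ℕ) :
    ∀ j : ℕ, j < i → ∀ f : S.B i ⟶ (T.F j)⟦(1 : ℤ)⟧, f = 0 := by
  intro j
  induction j with
  | zero =>
    intro _ f
    exact ((shiftFunctor C (1 : ℤ)).map_isZero T.zero).eq_of_tgt _ _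
  | succ j ih =>
    intro hj f
    have h0 : f ≫ (T.π j)⟦(1 : ℤ)⟧' = 0 := hv i j (by omega) _
    obtain ⟨g, hg⟩ := T.coy₂s j f h0
    rw [hg, ih (by omega) g]
    exact zero_comp

/-- a map `F n → G n` inducing zero on all graded pieces -/
def Null (S T : Tower t c) : (n : ℕ) → (S.F n ⟶ T.F n) → Prop
  | 0, _ => True
  | n + 1, f => f ≫ T.π n = 0 ∧ ∃ f' : S.F n ⟶ T.F n, f' ≫ T.ι n = S.ι n ≫ f ∧ Null S T n f'

lemma null_zero (S T : Tower t c) : ∀ n : ℕ, Null S T n 0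
  | 0 => trivial
  | n + 1 => ⟨zero_comp, 0, by rw [zero_comp, comp_zero], null_zero S T n⟩

lemma null_lift {S T : Tower t c} (hv : HVan S T) (n : ℕ) (f' : S.F n ⟶ T.F n)
    (h : Null S T n f') :
    ∃ f : S.F (n + 1) ⟶ T.F (n + 1), Null S T (n + 1) f ∧ f' ≫ T.ι n = S.ι n ≫ f := by
  have hδ : S.δ n ≫ f'⟦(1 : ℤ)⟧' = 0 := by
    cases n with
    | zero => exact ((shiftFunctor C (1 : ℤ)).map_isZero T.zero).eq_of_tgt _ _
    | succ m =>
      have h1 : (S.δ (m + 1) ≫ f'⟦(1 : ℤ)⟧') ≫ (T.π m)⟦(1 : ℤ)⟧' = 0 := by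
        rw [Category.assoc, ← Functor.map_comp, h.1, Functor.map_zero, comp_zero]
      obtain ⟨g, hg⟩ := T.coy₂s m _ h1
      rw [hg, hv.vanish (m + 1) m (by omega) g]
      exact zero_comp
  obtain ⟨f, hf1', hf2'⟩ : ∃ f : S.F (n + 1) ⟶ T.F (n + 1),
      S.ι n ≫ f = f' ≫ T.ι n ∧ S.π n ≫ (0 : S.B n ⟶ T.B n) = f ≫ T.π n :=
    complete_distinguished_triangle_morphism₂ _ _ (S.dist n) (T.dist n)
    f' 0 (by
      change S.δ n ≫ f'⟦(1 : ℤ)⟧' = 0 ≫ T.δ n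
      rw [hδ, zero_comp])
  refine ⟨f, ⟨?_, f', hf1'.symm, h⟩, hf1'.symm⟩
  rw [← hf2', comp_zero]

lemma null_descend {S T : Tower t c} (hv : HVan S T) (n : ℕ)
    (H : ∀ f, Null S T (n + 1) f → f = 0) : ∀ f, Null S T n f → f = 0 := by
  intro f' hf'
  obtain ⟨f, hf, he⟩ := null_lift hv n f' hf'
  have h0 : f' ≫ T.ι n = 0 := by rw [he, H f hf, comp_zero]
  have hX : t.IsLE (S.F n) (c + n) := by
    have := S.leF n
    exact t.isLE_of_le _ (c + n - 1) _ (by lia)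
  exact T.uniq_ι n hX f' h0

lemma null_ext1 {S T : Tower t c} (hv : HVan S T) (n : ℕ)
    (H : ∀ f, Null S T (n + 1 + 1) f → f = 0) (g : S.B (n + 1) ⟶ T.B n) : g = 0 := by
  -- lift `g` to `G (n+1)`
  have h1 : g ≫ T.δ n = 0 := hv.vanish (n + 1) n (by omega) _
  obtain ⟨g', hg''⟩ := T.coy₃ n g h1
  -- the induced map is null
  have hN : Null S T (n + 1 + 1) (S.π (n + 1) ≫ g' ≫ T.ι (n + 1)) := by
    refine ⟨?_, 0, ?_, null_zero S T (n + 1)⟩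
    · rw [Category.assoc, Category.assoc, T.ι_π, comp_zero, comp_zero]
    · rw [zero_comp, ← Category.assoc, S.ι_π, zero_comp]
  have h2 := H _ hN
  have hX : t.IsLE (S.F (n + 1 + 1)) (c + ((n + 1 : ℕ) : ℤ)) := by
    have := S.leF (n + 1 + 1)
    exact t.isLE_of_le _ (c + ((n + 1 + 1 : ℕ) : ℤ) - 1) _ (by push_cast; lia)
  have h3 : S.π (n + 1) ≫ g' = 0 :=
    T.uniq_ι (n + 1) hX _ (by rw [Category.assoc]; exact h2)
  refine S.uniq_π (n + 1) ?_ g ?_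
  · have := T.geB n
    exact t.isGE_of_ge _ _ (c + n) (by push_cast; lia)
  · rw [hg'', ← Category.assoc, h3, zero_comp]

lemma null_descend_le {S T : Tower t c} (hv : HVan S T) (N : ℕ)
    (H : ∀ f, Null S T N f → f = 0) : ∀ n ≤ N, ∀ f, Null S T n f → f = 0 := by
  intro n hn
  obtain ⟨d, rfl⟩ := Nat.exists_eq_add_of_le hn
  clear hn
  induction d with
  | zero => exact H
  | succ d ih => exact ih (null_descend hv (n + d) H)

theorem ext1_eq_zero {S T : Tower t c} (hv : HVan S T) (N : ℕ)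
    (H : ∀ f, Null S T N f → f = 0) (n : ℕ) (hn : n + 2 ≤ N) (g : S.B (n + 1) ⟶ T.B n) :
    g = 0 :=
  null_ext1 hv n (null_descend_le hv N H (n + 2) hn) g

end Tower

end General

end FDim
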