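import Pool.Agent.Work.MP_f714fc_ag.Trunc1

/-! Dimension counts along truncation towers. -/

open CategoryTheory Limits Pretriangulated Triangulated Module

namespace FDim

universe w v u

set_option linter.unusedSectionVars false

section Lin

variable {k : Type w} [Field k]
variable {C : Type u} [Category.{v} C] [Preadditive C] [HasZeroObject C] [HasShift C ℤ]
  [∀ n : ℤ, (shiftFunctor C n).Additive] [Pretriangulated C] [Linear k C]
  [∀ n : ℤ, (shiftFunctor C n).Linear k]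

/-- a module in the middle of an exact sequence of finite modules is finite -/
lemma finite_of_exact {V₁ V₂ V₃ : Type*} [AddCommGroup V₁] [AddCommGroup V₂] [AddCommGroup V₃]
    [Module k V₁] [Module k V₂] [Module k V₃] [Module.Finite k V₁] [Module.Finite k V₃]
    (f : V₁ →ₗ[k] V₂) (g : V₂ →ₗ[k] V₃) (h : ∀ x, g x = 0 → ∃ y, f y = x) :
    Module.Finite k V₂ := by
  have h1 : Module.Finite k (LinearMap.ker g) := by
    refine Module.Finite.of_surjective
      (LinearMap.codRestrict (LinearMap.ker g ⊓ ⊤ : Submodule k V₂)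
        (f.comp (LinearMap.ker (g.comp f)).subtype) ?_ |>.comp LinearMap.id |> fun l =>
          (LinearMap.restrict LinearMap.id (p := (LinearMap.ker g ⊓ ⊤ : Submodule k V₂))
            (q := LinearMap.ker g) (fun x hx => hx.1)).comp l) ?_
    · rintro ⟨x, hx⟩
      exact ⟨hx, trivial⟩
    · rintro ⟨x, hx⟩
      obtain ⟨y, rfl⟩ := h x hx
      exact ⟨⟨y, hx⟩, rfl⟩
  have h2 : Module.Finite k (V₂ ⧸ LinearMap.ker g) :=
    Module.Finite.equiv g.quotKerEquivRange.symm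
  exact Module.Finite.of_submodule_quotient (LinearMap.ker g)

/-- post-composition as a linear map -/
def postL {X Y Z : C} (f : Y ⟶ Z) : (X ⟶ Y) →ₗ[k] (X ⟶ Z) := Linear.rightComp k X f

/-- pre-composition as a linear map -/
def preL {X Y Z : C} (f : X ⟶ Y) : (Y ⟶ Z) →ₗ[k] (X ⟶ Z) := Linear.leftComp k Z f

@[simp] lemma postL_apply {X Y Z : C} (f : Y ⟶ Z) (g : X ⟶ Y) :
    postL (k := k) f g = g ≫ f := rfl

@[simp] lemma preL_apply {X Y Z : C} (f : X ⟶ Y) (g : Y ⟶ Z) :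
    preL (k := k) f g = f ≫ g := rfl

lemma finite_of_isZero {V : Type*} [AddCommGroup V] [Module k V] (h : ∀ x : V, x = 0) :
    Module.Finite k V := by
  have : Subsingleton V := ⟨fun a b => by rw [h a, h b]⟩
  infer_instance

variable {t : TStructure C} {c : ℤ}

namespace Tower

lemma finite_BF (S T : Tower t c)
    (h : ∀ i j : ℕ, Module.Finite k (S.B i ⟶ T.B j)) (i : ℕ) :
    ∀ m : ℕ, Module.Finite k (S.B i ⟶ T.F m) := by
  intro m
  induction m with
  | zero => exact finite_of_isZero fun x => T.zero.eq_of_tgt _ _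
  | succ m ih =>
    have := h i m
    exact finite_of_exact (postL (T.ι m)) (postL (T.π m)) fun x hx => by
      obtain ⟨g, hg⟩ := T.coy₂ m x hx
      exact ⟨g, hg.symm⟩

lemma finite_FF (S T : Tower t c)
    (h : ∀ i j : ℕ, Module.Finite k (S.B i ⟶ T.B j)) (m : ℕ) :
    ∀ n : ℕ, Module.Finite k (S.F n ⟶ T.F m) := by
  intro n
  induction n with
  | zero => exact finite_of_isZero fun x => S.zero.eq_of_src _ _
  | succ n ih =>
    have := finite_BF S T h n m
    exact finite_of_exact (preL (S.π n)) (preL (S.ι n)) fun x hx => by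
      obtain ⟨g, hg⟩ := S.yon₂ n x hx
      exact ⟨g, hg.symm⟩

lemma finite_BF1 (S T : Tower t c)
    (h : ∀ i j : ℕ, Module.Finite k (S.B i ⟶ (T.B j)⟦(1 : ℤ)⟧)) (i : ℕ) :
    ∀ m : ℕ, Module.Finite k (S.B i ⟶ (T.F m)⟦(1 : ℤ)⟧) := by
  intro m
  induction m with
  | zero =>
    exact finite_of_isZero fun x =>
      ((shiftFunctor C (1 : ℤ)).map_isZero T.zero).eq_of_tgt _ _
  | succ m ih =>
    have := h i m
    exact finite_of_exact (postL ((T.ι m)⟦(1 : ℤ)⟧')) (postL ((T.π m)⟦(1 : ℤ)⟧')) fun x hx => by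
      obtain ⟨g, hg⟩ := T.coy₂s m x hx
      exact ⟨g, hg.symm⟩

/-- the obstruction map -/
noncomputable def obs (S T : Tower t c) (n : ℕ) :
    ((S.F n ⟶ T.F n) × (S.B n ⟶ T.B n)) →ₗ[k] (S.B n ⟶ (T.F n)⟦(1 : ℤ)⟧) :=
  LinearMap.coprod ((preL (S.δ n)).comp ((shiftFunctor C (1 : ℤ)).mapLinearMap k))
    (-(postL (T.δ n)))

lemma obs_apply (S T : Tower t c) (n : ℕ) (f : S.F n ⟶ T.F n) (r : S.B n ⟶ T.B n) :
    obs (k := k) S T n (f, r) = S.δ n ≫ f⟦(1 : ℤ)⟧' - r ≫ T.δ n := by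
  simp [obs, sub_eq_add_neg]

/-- compatible triples -/
def compat (S T : Tower t c) (n : ℕ) :
    Submodule k ((S.F (n + 1) ⟶ T.F (n + 1)) × ((S.F n ⟶ T.F n) × (S.B n ⟶ T.B n))) where
  carrier := {x | S.ι n ≫ x.1 = x.2.1 ≫ T.ι n ∧ S.π n ≫ x.2.2 = x.1 ≫ T.π n}
  zero_mem' := by simp
  add_mem' := by
    rintro ⟨a, b, d⟩ ⟨a', b', d'⟩ ⟨h1, h2⟩ ⟨h3, h4⟩
    simp only [Set.mem_ofPred_eq] at *
    simp [h1, h2, h3, h4]
  smul_mem' := by
    rintro r ⟨a, b, d⟩ ⟨h1, h2⟩
    simp only [Set.mem_ofPred_eq] at *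
    simp [h1, h2]

/-- one step of the dimension count -/
theorem dim_step (S T : Tower t c) (n : ℕ)
    (h : ∀ i j : ℕ, Module.Finite k (S.B i ⟶ T.B j))
    (h' : ∀ i j : ℕ, Module.Finite k (S.B i ⟶ (T.B j)⟦(1 : ℤ)⟧)) :
    finrank k (S.F n ⟶ T.F n) + finrank k (S.B n ⟶ T.B n) ≤
      finrank k (S.F (n + 1) ⟶ T.F (n + 1)) + finrank k (S.B n ⟶ (T.F n)⟦(1 : ℤ)⟧) := by
  have := h n n
  have := finite_FF S T h n n
  have := finite_FF S T h (n + 1) (n + 1)
  have := finite_BF1 S T h' n n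
  -- `compat` embeds in `Hom (F (n+1), G (n+1))`
  have h1 : finrank k (compat (k := k) S T n) ≤ finrank k (S.F (n + 1) ⟶ T.F (n + 1)) := by
    apply LinearMap.finrank_le_finrank_of_injective
      (f := (LinearMap.fst k _ _).comp (compat (k := k) S T n).subtype)
    rw [injective_iff_map_eq_zero]
    rintro ⟨⟨a, b, d⟩, h1, h2⟩ h0
    have ha : a = 0 := h0
    subst ha
    simp only [comp_zero, zero_comp] at h1 h2
    have hX : t.IsLE (S.F n) (c + n) := by
      have := S.leF n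
      exact t.isLE_of_le _ (c + n - 1) _ (by lia)
    have hY : t.IsGE (T.B n) (c + n - 1) := by
      have := T.geB n
      exact t.isGE_of_ge _ _ (c + n) (by lia)
    have hb : b = 0 := T.uniq_ι n hX b h1.symm
    have hd : d = 0 := S.uniq_π n hY d h2
    subst hb hd
    rfl
  -- `compat` surjects onto the kernel of `obs`
  have h2 : finrank k (LinearMap.ker (obs (k := k) S T n)) ≤
      finrank k (compat (k := k) S T n) := by
    have hmem : ∀ x : compat (k := k) S T n,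
        (LinearMap.snd k _ _).comp (compat (k := k) S T n).subtype x ∈
          (⊤ : Submodule k ((S.F n ⟶ T.F n) × (S.B n ⟶ T.B n))) := fun _ => trivial
    have hle : LinearMap.ker (obs (k := k) S T n) ≤
        LinearMap.range ((LinearMap.snd k _ _).comp (compat (k := k) S T n).subtype) := by
      rintro ⟨b, d⟩ hx
      rw [LinearMap.mem_ker, obs_apply, sub_eq_zero] at hx
      obtain ⟨f, hf1, hf2⟩ : ∃ f : S.F (n + 1) ⟶ T.F (n + 1),
          S.ι n ≫ f = b ≫ T.ι n ∧ S.π n ≫ d = f ≫ T.π n :=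
        complete_distinguished_triangle_morphism₂ _ _ (S.dist n) (T.dist n) b d hx
      exact ⟨⟨(f, (b, d)), hf1, hf2⟩, rfl⟩
    exact (Submodule.finrank_mono hle).trans (LinearMap.finrank_range_le _)
  have h3 := LinearMap.finrank_range_add_finrank_ker (obs (k := k) S T n)
  have h4 : finrank k (LinearMap.range (obs (k := k) S T n)) ≤
      finrank k (S.B n ⟶ (T.F n)⟦(1 : ℤ)⟧) := Submodule.finrank_le _
  rw [finrank_prod] at h3
  omega

lemma finrank_obs_zero (S T : Tower t c) :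
    finrank k (S.B 0 ⟶ (T.F 0)⟦(1 : ℤ)⟧) = 0 := by
  have : Subsingleton (S.B 0 ⟶ (T.F 0)⟦(1 : ℤ)⟧) :=
    ⟨fun a b => ((shiftFunctor C (1 : ℤ)).map_isZero T.zero).eq_of_tgt _ _⟩
  exact finrank_zero_of_subsingleton

lemma finrank_obs_succ {S T : Tower t c} (hv : HVan S T)
    (h' : ∀ i j : ℕ, Module.Finite k (S.B i ⟶ (T.B j)⟦(1 : ℤ)⟧)) (n : ℕ) :
    finrank k (S.B (n + 1) ⟶ (T.F (n + 1))⟦(1 : ℤ)⟧) ≤
      finrank k (S.B (n + 1) ⟶ (T.B n)⟦(1 : ℤ)⟧) := by
  have := h' (n + 1) n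
  apply LinearMap.finrank_le_finrank_of_injective (f := postL ((T.π n)⟦(1 : ℤ)⟧'))
  rw [injective_iff_map_eq_zero]
  intro f hf
  obtain ⟨g, hg⟩ := T.coy₂s n f hf
  rw [hg, hv.vanish (n + 1) n (by omega) g, zero_comp]

/-- `∑ hom (B j, B' j) ≤ hom (F, G) + ∑ hom (B (j+1), B' j [1])` -/
theorem sum_le {S T : Tower t c} (hv : HVan S T)
    (h : ∀ i j : ℕ, Module.Finite k (S.B i ⟶ T.B j))
    (h' : ∀ i j : ℕ, Module.Finite k (S.B i ⟶ (T.B j)⟦(1 : ℤ)⟧)) (N : ℕ) :
    ∑ j ∈ Finset.range N, finrank k (S.B j ⟶ T.B j) ≤ finrank k (S.F N ⟶ T.F N) +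
      ∑ j ∈ Finset.range (N - 1), finrank k (S.B (j + 1) ⟶ (T.B j)⟦(1 : ℤ)⟧) := by
  induction N with
  | zero => simp
  | succ N ih =>
    have h1 := dim_step (k := k) S T N h h'
    rw [Finset.sum_range_succ]
    cases N with
    | zero =>
      have h0 := finrank_obs_zero (k := k) S T
      simp only [Finset.range_zero, Finset.sum_empty, zero_add, Nat.add_sub_cancel] at *
      omega
    | succ M =>
      have h2 := finrank_obs_succ (k := k) hv h' M
      have h3 : M + 1 + 1 - 1 = M + 1 := rfl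
      have h4 : M + 1 - 1 = M := rfl
      rw [h3, Finset.sum_range_succ (fun j => finrank k (S.B (j + 1) ⟶ (T.B j)⟦(1 : ℤ)⟧))]
      rw [h4] at ih
      omega

end Tower

end Lin

end FDim
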