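import Pool.Agent.Work.MP_f714fc_ag.Trunc2

/-! Truncation towers of an object and their shifts; the two counts for `(F, F)` and
`(F, F[1])`. -/

open CategoryTheory Limits Pretriangulated Triangulated Module

namespace FDim

universe w v u

section

variable {C : Type u} [Category.{v} C] [Preadditive C] [HasZeroObject C] [HasShift C ℤ]
  [∀ n : ℤ, (shiftFunctor C n).Additive] [Pretriangulated C]

namespace Tower

variable {t : TStructure C} {c : ℤ}

/-- the shifted tower, with the first (zero) step dropped -/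
noncomputable def shiftTail (S : Tower t c) (h : IsZero (S.F 1)) : Tower t c where
  F j := (S.F (j + 1))⟦(1 : ℤ)⟧
  B j := (S.B (j + 1))⟦(1 : ℤ)⟧
  ι j := ((Triangle.shiftFunctor C 1).obj
    (Triangle.mk (S.ι (j + 1)) (S.π (j + 1)) (S.δ (j + 1)))).mor₁
  π j := ((Triangle.shiftFunctor C 1).obj
    (Triangle.mk (S.ι (j + 1)) (S.π (j + 1)) (S.δ (j + 1)))).mor₂
  δ j := ((Triangle.shiftFunctor C 1).obj
    (Triangle.mk (S.ι (j + 1)) (S.π (j + 1)) (S.δ (j + 1)))).mor₃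
  dist j := Triangle.shift_distinguished _ (S.dist (j + 1)) 1
  zero := (shiftFunctor C (1 : ℤ)).map_isZero h
  leF j := by
    have := S.leF (j + 1)
    exact t.isLE_shift _ (c + ((j + 1 : ℕ) : ℤ) - 1) 1 _ (by push_cast; lia)
  leB j := by
    have := S.leB (j + 1)
    exact t.isLE_shift _ (c + ((j + 1 : ℕ) : ℤ)) 1 _ (by push_cast; lia)
  geB j := by
    have := S.geB (j + 1)
    exact t.isGE_shift _ (c + ((j + 1 : ℕ) : ℤ)) 1 _ (by push_cast; lia)

lemma shiftTail_F (S : Tower t c) (h : IsZero (S.F 1)) (j : ℕ) :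
    (S.shiftTail h).F j = (S.F (j + 1))⟦(1 : ℤ)⟧ := rfl

lemma shiftTail_B (S : Tower t c) (h : IsZero (S.F 1)) (j : ℕ) :
    (S.shiftTail h).B j = (S.B (j + 1))⟦(1 : ℤ)⟧ := rfl

variable [IsTriangulated C]

/-- the tower of truncations of `X`, for `X` of degrees at least `c` -/
noncomputable def ofTrunc (t : TStructure C) (c : ℤ) (X : C) (hX : t.IsGE X c) : Tower t c where
  F j := (t.truncLT (c + (j : ℤ))).obj X
  B j := (t.truncGELT (c + (j : ℤ)) (c + ((j + 1 : ℕ) : ℤ))).obj X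
  ι j := ((t.triangleLTLTGELT (c + (j : ℤ)) (c + ((j + 1 : ℕ) : ℤ))
    (by push_cast; lia)).obj X).mor₁
  π j := ((t.triangleLTLTGELT (c + (j : ℤ)) (c + ((j + 1 : ℕ) : ℤ))
    (by push_cast; lia)).obj X).mor₂
  δ j := ((t.triangleLTLTGELT (c + (j : ℤ)) (c + ((j + 1 : ℕ) : ℤ))
    (by push_cast; lia)).obj X).mor₃
  dist j := t.triangleLTLTGELT_distinguished (c + (j : ℤ)) (c + ((j + 1 : ℕ) : ℤ))
    (by push_cast; lia) X
  zero := by
    rw [← t.isGE_iff_isZero_truncLT_obj]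
    exact t.isGE_of_ge _ _ c (by simp)
  leF j := inferInstance
  leB j := by
    have h : t.IsLE ((t.truncGELT (c + (j : ℤ)) (c + ((j + 1 : ℕ) : ℤ))).obj X)
      (c + ((j + 1 : ℕ) : ℤ) - 1) := inferInstance
    exact t.isLE_of_le _ (c + ((j + 1 : ℕ) : ℤ) - 1) _ (by push_cast; lia)
  geB j := inferInstance

lemma ofTrunc_F (t : TStructure C) (c : ℤ) (X : C) (hX : t.IsGE X c) (j : ℕ) :
    (ofTrunc t c X hX).F j = (t.truncLT (c + (j : ℤ))).obj X := rfl

lemma ofTrunc_B (t : TStructure C) (c : ℤ) (X : C) (hX : t.IsGE X c) (j : ℕ) :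
    (ofTrunc t c X hX).B j = (t.truncGELT (c + (j : ℤ)) (c + ((j + 1 : ℕ) : ℤ))).obj X := rfl

lemma ofTrunc_isZero (t : TStructure C) (c : ℤ) (X : C) (hX : t.IsGE X c) (n : ℕ)
    (h : t.IsGE X (c + n)) : IsZero ((ofTrunc t c X hX).F n) := by
  rw [ofTrunc_F, ← t.isGE_iff_isZero_truncLT_obj]
  exact h

lemma ofTrunc_isIso (t : TStructure C) (c : ℤ) (X : C) (hX : t.IsGE X c) (n : ℕ)
    (h : t.IsLE X (c + n - 1)) : Nonempty ((ofTrunc t c X hX).F n ≅ X) := by
  have h1 : IsIso ((t.truncLTι (c + (n : ℤ))).app X) :=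
    (t.isLE_iff_isIso_truncLTι_app (c + n - 1) (c + n) (by lia) X).1 h
  exact ⟨@asIso _ _ _ _ ((t.truncLTι (c + (n : ℤ))).app X) h1⟩

end Tower

end

end FDim
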