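import Pool.Agent.Work.MP_f714fc_ag.Trunc3

/-! Truncation towers in the derived category: graded pieces are the cohomology objects,
and morphisms between shifted single objects are Ext groups. -/

open CategoryTheory Limits Pretriangulated Triangulated Module DerivedCategory

namespace FDim

universe w' w v u t

section Homology

variable {A : Type u} [Category.{v} A] [Abelian A] [HasDerivedCategory.{w} A]

lemma homology_iso₁ (T : Triangle (DerivedCategory A)) (hT : T ∈ distTriang _) (n : ℤ)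
    (h₀ : IsZero ((homologyFunctor A (n - 1)).obj T.obj₃))
    (h₁ : IsZero ((homologyFunctor A n).obj T.obj₃)) :
    IsIso ((homologyFunctor A n).map T.mor₁) := by
  have hm : Mono ((homologyFunctor A n).map T.mor₁) :=
    (HomologySequence.mono_homologyMap_mor₁_iff T hT (n - 1) n (by lia)).2 (h₀.eq_of_src _ _)
  have he : Epi ((homologyFunctor A n).map T.mor₁) :=
    (HomologySequence.epi_homologyMap_mor₁_iff T hT n).2 (h₁.eq_of_tgt _ _)
  exact isIso_of_mono_of_epi _

lemma homology_iso₂ (T : Triangle (DerivedCategory A)) (hT : T ∈ distTriang _) (n : ℤ)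
    (h₀ : IsZero ((homologyFunctor A n).obj T.obj₁))
    (h₁ : IsZero ((homologyFunctor A (n + 1)).obj T.obj₁)) :
    IsIso ((homologyFunctor A n).map T.mor₂) := by
  have hm : Mono ((homologyFunctor A n).map T.mor₂) :=
    (HomologySequence.mono_homologyMap_mor₂_iff T hT n).2 (h₀.eq_of_src _ _)
  have he : Epi ((homologyFunctor A n).map T.mor₂) :=
    (HomologySequence.epi_homologyMap_mor₂_iff T hT n (n + 1) (by lia)).2 (h₁.eq_of_tgt _ _)
  exact isIso_of_mono_of_epi _

/-- the canonical t-structure -/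
noncomputable abbrev tA (A : Type u) [Category.{v} A] [Abelian A] [HasDerivedCategory.{w} A] :
    TStructure (DerivedCategory A) := TStructure.t

lemma homology_trunc (X : DerivedCategory A) (n m : ℤ) (hm : n + 1 = m) :
    Nonempty ((homologyFunctor A n).obj (((tA A).truncGELT n m).obj X) ≅
      (homologyFunctor A n).obj X) := by
  subst hm
  -- `τ_{< n+1} X → X`
  have h1 : IsIso ((homologyFunctor A n).map (((tA A).truncLTι (n + 1)).app X)) := by
    have hGE : (((tA A).truncGE (n + 1)).obj X).IsGE (n + 1) := inferInstance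
    exact homology_iso₁ (((tA A).triangleLTGE (n + 1)).obj X)
      ((tA A).triangleLTGE_distinguished (n + 1) X) n
      (isZero_of_isGE _ (n + 1) (n - 1) (by lia)) (isZero_of_isGE _ (n + 1) n (by lia))
  -- `τ_{< n+1} X → τ_{≥ n} τ_{< n+1} X`
  have h2 : IsIso ((homologyFunctor A n).map
      (((tA A).truncGEπ n).app (((tA A).truncLT (n + 1)).obj X))) := by
    have hLE : (((tA A).truncLT n).obj (((tA A).truncLT (n + 1)).obj X)).IsLE (n - 1) :=
      inferInstance
    exact homology_iso₂ (((tA A).triangleLTGE n).obj (((tA A).truncLT (n + 1)).obj X))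
      ((tA A).triangleLTGE_distinguished n _) n
      (isZero_of_isLE _ (n - 1) n (by lia)) (isZero_of_isLE _ (n - 1) (n + 1) (by lia))
  exact ⟨(@asIso _ _ _ _ _ h2).symm ≪≫ (@asIso _ _ _ _ _ h1)⟩

lemma single_of_pure (Y : DerivedCategory A) (n : ℤ) (h₁ : Y.IsGE n) (h₂ : Y.IsLE n) :
    Nonempty (Y ≅ (singleFunctor A n).obj ((homologyFunctor A n).obj Y)) := by
  obtain ⟨Z, ⟨e⟩⟩ := exists_iso_singleFunctor_obj_of_isGE_of_isLE Y n
  have e' : (homologyFunctor A n).obj Y ≅ Z :=
    (homologyFunctor A n).mapIso e ≪≫ (singleFunctorCompHomologyFunctorIso A n).app Z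
  exact ⟨e ≪≫ (singleFunctor A n).mapIso e'.symm⟩

/-- the graded pieces of the truncation tower are the cohomology objects -/
lemma ofTrunc_B_iso (X : DerivedCategory A) (c : ℤ) (hX : (tA A).IsGE X c) (j : ℕ) :
    Nonempty ((Tower.ofTrunc (tA A) c X hX).B j ≅
      (singleFunctor A (c + j)).obj ((homologyFunctor A (c + j)).obj X)) := by
  obtain ⟨e⟩ := single_of_pure ((Tower.ofTrunc (tA A) c X hX).B j) (c + j)
    ((Tower.ofTrunc (tA A) c X hX).geB j) ((Tower.ofTrunc (tA A) c X hX).leB j)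
  obtain ⟨e'⟩ := homology_trunc X (c + j) (c + ((j + 1 : ℕ) : ℤ)) (by push_cast; lia)
  exact ⟨e ≪≫ (singleFunctor A (c + j)).mapIso e'⟩

end Homology

section ExtSingle

variable {k : Type t} [Field k] {A : Type u} [Category.{v} A] [Abelian A] [Linear k A]
  [HasDerivedCategory.{w} A] [HasExt.{w'} A]

/-- full faithfulness of the shift as a linear equivalence -/
noncomputable def shiftLE (p : ℤ) (X Y : DerivedCategory A) :
    (X ⟶ Y) ≃ₗ[k] (X⟦p⟧ ⟶ Y⟦p⟧) :=
  LinearEquiv.ofBijective ((shiftFunctor (DerivedCategory A) p).mapLinearMap k)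
    ⟨(shiftFunctor (DerivedCategory A) p).map_injective,
      (shiftFunctor (DerivedCategory A) p).map_surjective⟩

/-- maps between single objects are Ext groups -/
lemma single_ext (X Y : A) (p m : ℤ) (n : ℕ) (h : p - m = n) :
    Nonempty (((singleFunctor A p).obj X ⟶ (singleFunctor A m).obj Y) ≃ₗ[k]
      Abelian.Ext.{w'} X Y n) := by
  refine ⟨(shiftLE p _ _).trans ((Linear.homCongr k
    (((singleFunctors A).shiftIso p 0 p (by lia)).app X)
    (((singleFunctors A).shiftIso p (m - p) m (by lia)).app Y ≪≫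
      (((singleFunctors A).shiftIso (n : ℤ) (m - p) 0 (by lia)).app Y).symm)).trans
    (Abelian.Ext.homLinearEquiv (R := k) (X := X) (Y := Y) (n := n)).symm)⟩

/-- transport along isomorphisms, with shifts on the right -/
lemma piece_ext {P Q : DerivedCategory A} {X Y : A} (p q r : ℤ) (n : ℕ)
    (eP : Nonempty (P ≅ (singleFunctor A p).obj X))
    (eQ : Nonempty (Q ≅ (singleFunctor A q).obj Y)) (h : p - q + r = n) :
    Nonempty ((P ⟶ Q⟦r⟧) ≃ₗ[k] Abelian.Ext.{w'} X Y n) := by
  obtain ⟨eP⟩ := eP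
  obtain ⟨eQ⟩ := eQ
  obtain ⟨e⟩ := single_ext (k := k) X Y p (q - r) n (by lia)
  exact ⟨(Linear.homCongr k eP ((shiftFunctor (DerivedCategory A) r).mapIso eQ ≪≫
    ((singleFunctors A).shiftIso r (q - r) q (by lia)).app Y)).trans e⟩

lemma piece_ext₀ {P Q : DerivedCategory A} {X Y : A} (p q : ℤ) (n : ℕ)
    (eP : Nonempty (P ≅ (singleFunctor A p).obj X))
    (eQ : Nonempty (Q ≅ (singleFunctor A q).obj Y)) (h : p - q = n) :
    Nonempty ((P ⟶ Q) ≃ₗ[k] Abelian.Ext.{w'} X Y n) := by
  obtain ⟨eP⟩ := eP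
  obtain ⟨eQ⟩ := eQ
  obtain ⟨e⟩ := single_ext (k := k) X Y p q n h
  exact ⟨(Linear.homCongr k eP eQ).trans e⟩

lemma piece_ext₂ {P Q : DerivedCategory A} {X Y : A} (p q : ℤ) (n : ℕ)
    (eP : Nonempty (P ≅ (singleFunctor A p).obj X))
    (eQ : Nonempty (Q ≅ (singleFunctor A q).obj Y)) (h : p - q + 2 = n) :
    Nonempty ((P ⟶ Q⟦(1 : ℤ)⟧⟦(1 : ℤ)⟧) ≃ₗ[k] Abelian.Ext.{w'} X Y n) := by
  obtain ⟨eQ⟩ := eQ
  have eQ' : Q⟦(1 : ℤ)⟧ ≅ (singleFunctor A (q - 1)).obj Y :=
    (shiftFunctor (DerivedCategory A) (1 : ℤ)).mapIso eQ ≪≫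
    ((singleFunctors A).shiftIso 1 (q - 1) q (by lia)).app Y
  exact piece_ext (k := k) p (q - 1) 1 n eP ⟨eQ'⟩ (by lia)

end ExtSingle

end FDim
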