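import Pool.Agent.Work.MP_f714fc_ag.Trunc4

/-! The cohomology objects of an object `X` of the derived category with
`Hom (X, X)` of dimension one and `Hom (X, X[1]) = 0`, when `Ext ^ p = 0` for `p ≥ 3`. -/

open CategoryTheory Limits Pretriangulated Triangulated Module DerivedCategory

namespace FDim

universe w' w v u t

set_option linter.unusedSectionVars false

section Main

variable {k : Type t} [Field k] {A : Type u} [Category.{v} A] [Abelian A] [Linear k A]
  [HasDerivedCategory.{w} A] [HasExt.{w'} A]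

lemma shift_single {Q : DerivedCategory A} {Y : A} {q q' : ℤ}
    (eQ : Nonempty (Q ≅ (singleFunctor A q).obj Y)) (h : q' + 1 = q) :
    Nonempty (Q⟦(1 : ℤ)⟧ ≅ (singleFunctor A q').obj Y) := by
  obtain ⟨eQ⟩ := eQ
  exact ⟨(shiftFunctor (DerivedCategory A) (1 : ℤ)).mapIso eQ ≪≫
    ((singleFunctors A).shiftIso 1 q' q (by lia)).app Y⟩

lemma hom_zero_of_neg {P Q : DerivedCategory A} {X Y : A} {p q : ℤ}
    (eP : Nonempty (P ≅ (singleFunctor A p).obj X))
    (eQ : Nonempty (Q ≅ (singleFunctor A q).obj Y)) (h : p < q) (f : P ⟶ Q) : f = 0 := by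
  obtain ⟨eP⟩ := eP
  obtain ⟨eQ⟩ := eQ
  have h1 : P.IsLE p := TStructure.t.isLE_of_iso eP.symm p
  have h2 : Q.IsGE q := TStructure.t.isGE_of_iso eQ.symm q
  exact TStructure.t.zero_of_isLE_of_isGE f p q h h1 h2

lemma piece_finite {P Q : DerivedCategory A} {X Y : A} {p q : ℤ}
    (eP : Nonempty (P ≅ (singleFunctor A p).obj X))
    (eQ : Nonempty (Q ≅ (singleFunctor A q).obj Y))
    (h : ∀ n : ℕ, Module.Finite k (Abelian.Ext.{w'} X Y n)) : Module.Finite k (P ⟶ Q) := by
  by_cases hpq : p < q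
  · exact finite_of_isZero fun x => hom_zero_of_neg eP eQ hpq x
  · obtain ⟨n, hn⟩ := Int.eq_ofNat_of_zero_le (a := p - q) (by lia)
    obtain ⟨e⟩ := piece_ext₀ (k := k) p q n eP eQ hn
    have := h n
    exact Module.Finite.equiv e.symm

lemma piece_zero (k : Type t) [Field k] [Linear k A] {P Q : DerivedCategory A} {X Y : A} {p q : ℤ}
    (eP : Nonempty (P ≅ (singleFunctor A p).obj X))
    (eQ : Nonempty (Q ≅ (singleFunctor A q).obj Y)) (n : ℕ) (hn : p - q = n)
    (h : ∀ x : Abelian.Ext.{w'} X Y n, x = 0) (f : P ⟶ Q) : f = 0 := by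
  obtain ⟨e⟩ := piece_ext₀ (k := k) p q n eP eQ hn
  exact e.injective (by rw [h (e f), map_zero])

lemma ext_zero_of_piece (k : Type t) [Field k] [Linear k A] {P Q : DerivedCategory A} {X Y : A} {p q : ℤ}
    (eP : Nonempty (P ≅ (singleFunctor A p).obj X))
    (eQ : Nonempty (Q ≅ (singleFunctor A q).obj Y)) (n : ℕ) (hn : p - q = n)
    (h : ∀ f : P ⟶ Q, f = 0) (x : Abelian.Ext.{w'} X Y n) : x = 0 := by
  obtain ⟨e⟩ := piece_ext₀ (k := k) p q n eP eQ hn
  exact e.symm.injective (by rw [h (e.symm x), map_zero])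

lemma finrank_piece {P Q : DerivedCategory A} {X Y : A} {p q : ℤ}
    (eP : Nonempty (P ≅ (singleFunctor A p).obj X))
    (eQ : Nonempty (Q ≅ (singleFunctor A q).obj Y)) (n : ℕ) (hn : p - q = n) :
    finrank k (P ⟶ Q) = finrank k (Abelian.Ext.{w'} X Y n) := by
  obtain ⟨e⟩ := piece_ext₀ (k := k) p q n eP eQ hn
  exact e.finrank_eq

lemma finrank_ext₀ (X Y : A) :
    finrank k (Abelian.Ext.{w'} X Y 0) = finrank k (X ⟶ Y) :=
  (Abelian.Ext.linearEquiv₀ (R := k) (X := X) (Y := Y)).finrank_eq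

variable (X : DerivedCategory A)

/-- the cohomology objects -/
noncomputable abbrev Hc (i : ℤ) : A := (homologyFunctor A i).obj X

variable (k) in
/-- the standing hypotheses: Ext groups between the cohomology objects are finite
dimensional and vanish in degrees at least three -/
structure ExtHyp : Prop where
  fin : ∀ (i j : ℤ) (p : ℕ), Module.Finite k (Abelian.Ext.{w'} (Hc X i) (Hc X j) p)
  van : ∀ (i j : ℤ) (p : ℕ), 3 ≤ p → ∀ x : Abelian.Ext.{w'} (Hc X i) (Hc X j) p, x = 0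

variable {X}

section Base

variable (hE : ExtHyp.{w'} k X) (c : ℤ) (hX : (tA A).IsGE X c)

include hE

lemma hvan_self : Tower.HVan (Tower.ofTrunc (tA A) c X hX) (Tower.ofTrunc (tA A) c X hX) := by
  intro i l hil f
  exact piece_zero k (ofTrunc_B_iso X c hX i)
    (shift_single (q' := c + l - 1) (ofTrunc_B_iso X c hX l) (by lia)) (i - l + 1)
    (by push_cast [show l ≤ i by omega]; ring) (hE.van _ _ _ (by omega)) f

lemma fin_self (i j : ℕ) : Module.Finite k
    ((Tower.ofTrunc (tA A) c X hX).B i ⟶ (Tower.ofTrunc (tA A) c X hX).B j) :=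
  piece_finite (ofTrunc_B_iso X c hX i) (ofTrunc_B_iso X c hX j) (hE.fin _ _)

lemma fin_self₁ (i j : ℕ) : Module.Finite k
    ((Tower.ofTrunc (tA A) c X hX).B i ⟶ ((Tower.ofTrunc (tA A) c X hX).B j)⟦(1 : ℤ)⟧) :=
  piece_finite (ofTrunc_B_iso X c hX i)
    (shift_single (q' := c + j - 1) (ofTrunc_B_iso X c hX j) (by lia)) (hE.fin _ _)

lemma fin_self₂ (i j : ℕ) : Module.Finite k
    ((Tower.ofTrunc (tA A) c X hX).B i ⟶
      ((Tower.ofTrunc (tA A) c X hX).B j)⟦(1 : ℤ)⟧⟦(1 : ℤ)⟧) :=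
  piece_finite (ofTrunc_B_iso X c hX i)
    (shift_single (q' := c + j - 1 - 1)
      (shift_single (q' := c + j - 1) (ofTrunc_B_iso X c hX j) (by lia)) (by lia)) (hE.fin _ _)

end Base

end Main

end FDim
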