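import Pool.Agent.Work.MP_f714fc_ag.Trunc5

/-! Main result of the truncation part: relations between the cohomology objects of an object
`X` of the derived category with `Hom (X, X)` of dimension one and `Hom (X, X[1]) = 0`,
when `Ext ^ p = 0` for `p ≥ 3`. -/

open CategoryTheory Limits Pretriangulated Triangulated Module DerivedCategory

namespace FDim

universe w' w v u t

set_option linter.unusedSectionVars false

section Null

variable {k : Type t} [Field k] {C : Type u} [Category.{v} C] [Preadditive C] [HasZeroObject C]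
  [HasShift C ℤ] [∀ n : ℤ, (shiftFunctor C n).Additive] [Pretriangulated C] [Linear k C]
  [∀ n : ℤ, (shiftFunctor C n).Linear k] {t : TStructure C} {c : ℤ}

namespace Tower

lemma null_smul (S T : Tower t c) (r : k) : ∀ (n : ℕ) (f : S.F n ⟶ T.F n),
    Null S T n f → Null S T n (r • f)
  | 0, _, _ => trivial
  | n + 1, f, ⟨h1, f', h2, h3⟩ =>
    ⟨by rw [Linear.smul_comp, h1, smul_zero], r • f',
      by rw [Linear.smul_comp, h2, Linear.comp_smul], null_smul S T r n f' h3⟩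

lemma null_id_isZero (S : Tower t c) : ∀ n : ℕ, Null S S n (𝟙 (S.F n)) → IsZero (S.F n)
  | 0, _ => S.zero
  | n + 1, ⟨h1, f', h2, h3⟩ => by
    rw [Category.comp_id] at h2
    have hX : t.IsLE (S.F n) (c + n) := by
      have := S.leF n
      exact t.isLE_of_le _ (c + n - 1) _ (by lia)
    have hf' : f' = 𝟙 (S.F n) := by
      have h4 := S.uniq_ι n hX (f' - 𝟙 (S.F n)) (by
        rw [Preadditive.sub_comp, h2, Category.id_comp, sub_self])
      exact sub_eq_zero.1 h4
    subst hf'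
    have h5 := null_id_isZero S n h3
    obtain ⟨g, hg⟩ := S.coy₂ n _ h1
    rw [IsZero.iff_id_eq_zero, hg, h5.eq_of_tgt g 0, zero_comp]

end Tower

lemma zero_of_iso' {P Q X Y : C} (e : P ≅ X) (e' : Q ≅ Y) (h : ∀ f : X ⟶ Y, f = 0)
    (f : P ⟶ Q) : f = 0 := by
  have h1 := h (e.inv ≫ f ≫ e'.hom)
  rw [← cancel_epi e.inv, ← cancel_mono e'.hom]
  simpa using h1

end Null

section Final

variable {k : Type t} [Field k] {A : Type u} [Category.{v} A] [Abelian A] [Linear k A]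
  [HasDerivedCategory.{w} A] [HasExt.{w'} A] {X : DerivedCategory A}

/-- `Ext ^ 1 (H ^ (i+1), H ^ i) = 0` -/
theorem ext1_succ (hE : ExtHyp.{w'} k X) (a b : ℤ) (ha : X.IsGE a) (hb : X.IsLE b)
    (h0 : finrank k (X ⟶ X) = 1) (i : ℤ)
    (x : Abelian.Ext.{w'} (Hc X (i + 1)) (Hc X i) 1) : x = 0 := by
  obtain ⟨m, hm⟩ := Int.eq_ofNat_of_zero_le (a := i - min a i) (by lia)
  obtain ⟨e, he⟩ : ∃ e : ℕ, b - min a i + 1 ≤ e := ⟨(b - min a i + 1).toNat, Int.self_le_toNat _⟩
  set c := min a i with hc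
  have hX : (tA A).IsGE X c := TStructure.t.isGE_of_ge X c a (by lia)
  set S := Tower.ofTrunc (tA A) c X hX with hS
  set N := m + 2 + e with hN
  have hv := hvan_self hE c hX
  obtain ⟨eN⟩ := Tower.ofTrunc_isIso (tA A) c X hX N
    (TStructure.t.isLE_of_le X b _ (by push_cast [hN]; lia))
  have hXne : ¬ IsZero X := by
    intro hz
    have : Subsingleton (X ⟶ X) := ⟨fun f g => hz.eq_of_src f g⟩
    rw [finrank_zero_of_subsingleton] at h0
    exact zero_ne_one h0
  have hF1 : finrank k (S.F N ⟶ S.F N) = 1 := by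
    rw [← h0]
    exact (Linear.homCongr k eN eN).finrank_eq
  have hFne : ¬ IsZero (S.F N) := fun hz => hXne (hz.of_iso eN.symm)
  have hid : (𝟙 (S.F N)) ≠ 0 := fun h => hFne ((IsZero.iff_id_eq_zero _).2 h)
  have hnull : ∀ f : S.F N ⟶ S.F N, Tower.Null S S N f → f = 0 := by
    intro f hf
    obtain ⟨r, rfl⟩ := (finrank_eq_one_iff_of_nonzero' _ hid).1 hF1 f
    by_cases hr : r = 0
    · rw [hr, zero_smul]
    · exfalso
      apply hFne
      apply Tower.null_id_isZero S N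
      have := Tower.null_smul S S r⁻¹ N _ hf
      rwa [smul_smul, inv_mul_cancel₀ hr, one_smul] at this
  have hmain := Tower.ext1_eq_zero hv N hnull m (by omega)
  have e1 := ofTrunc_B_iso X c hX (m + 1)
  have e2 := ofTrunc_B_iso X c hX m
  have hi1 : c + ((m + 1 : ℕ) : ℤ) = i + 1 := by push_cast; lia
  have hi2 : c + (m : ℤ) = i := by lia
  rw [hi1] at e1
  rw [hi2] at e2
  exact ext_zero_of_piece k e1 e2 1 (by push_cast; lia) hmain x

/-- `∑ hom (H ^ i, H ^ i) ≤ 1 + ∑ ext ^ 2 (H ^ (i+1), H ^ i)` -/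
theorem sum_hom_self (hE : ExtHyp.{w'} k X) (a : ℤ) (n : ℕ) (ha : X.IsGE a)
    (hb : X.IsLE (a + n - 1)) :
    ∑ j ∈ Finset.range n, finrank k (Hc X (a + j) ⟶ Hc X (a + j)) ≤ finrank k (X ⟶ X) +
      ∑ j ∈ Finset.range (n - 1),
        finrank k (Abelian.Ext.{w'} (Hc X (a + j + 1)) (Hc X (a + j)) 2) := by
  have hX : (tA A).IsGE X a := ha
  have hv := hvan_self hE a hX
  obtain ⟨eN⟩ := Tower.ofTrunc_isIso (tA A) a X hX n hb
  have h := Tower.sum_le (k := k) hv (fin_self hE a hX) (fin_self₁ hE a hX) n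
  rw [(Linear.homCongr k eN eN).finrank_eq] at h
  refine le_trans (le_of_eq ?_) (h.trans (le_of_eq ?_))
  · refine Finset.sum_congr rfl fun j _ => ?_
    rw [← finrank_ext₀.{w'}, finrank_piece (ofTrunc_B_iso X a hX j) (ofTrunc_B_iso X a hX j) 0
      (by simp)]
  · congr 1
    refine Finset.sum_congr rfl fun j _ => ?_
    have e1 := ofTrunc_B_iso X a hX (j + 1)
    have hi1 : a + ((j + 1 : ℕ) : ℤ) = a + j + 1 := by push_cast; lia
    rw [hi1] at e1
    exact finrank_piece e1 (shift_single (q' := a + j - 1) (ofTrunc_B_iso X a hX j) (by lia)) 2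
      (by push_cast; lia)

section Shifted

variable (hE : ExtHyp.{w'} k X) (c : ℤ) (hX : (tA A).IsGE X c)
  (h1 : IsZero ((Tower.ofTrunc (tA A) c X hX).F 1))

include hE

lemma hvan_shift : Tower.HVan (Tower.ofTrunc (tA A) c X hX)
    ((Tower.ofTrunc (tA A) c X hX).shiftTail h1) := by
  intro i l hil f
  have e2 := ofTrunc_B_iso X c hX (l + 1)
  have hi2 : c + ((l + 1 : ℕ) : ℤ) = c + l + 1 := by push_cast; lia
  rw [hi2] at e2
  exact piece_zero k (ofTrunc_B_iso X c hX i)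
    (shift_single (q' := c + l - 1) (shift_single (q' := c + l) e2 (by lia)) (by lia))
    (i - l + 1) (by push_cast [show l ≤ i by omega]; ring) (hE.van _ _ _ (by omega)) f

lemma fin_shift (i j : ℕ) : Module.Finite k
    ((Tower.ofTrunc (tA A) c X hX).B i ⟶
      ((Tower.ofTrunc (tA A) c X hX).shiftTail h1).B j) :=
  fin_self₁ hE c hX i (j + 1)

lemma fin_shift₁ (i j : ℕ) : Module.Finite k
    ((Tower.ofTrunc (tA A) c X hX).B i ⟶
      (((Tower.ofTrunc (tA A) c X hX).shiftTail h1).B j)⟦(1 : ℤ)⟧) :=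
  fin_self₂ hE c hX i (j + 1)

end Shifted

/-- `Ext ^ 1 (H ^ i, H ^ i) = 0` -/
theorem ext1_self (hE : ExtHyp.{w'} k X) (a b : ℤ) (ha : X.IsGE a) (hb : X.IsLE b)
    (h1 : ∀ f : X ⟶ X⟦(1 : ℤ)⟧, f = 0) (i : ℤ)
    (x : Abelian.Ext.{w'} (Hc X i) (Hc X i) 1) : x = 0 := by
  obtain ⟨m, hm⟩ := Int.eq_ofNat_of_zero_le (a := i - min a i) (by lia)
  obtain ⟨e, he⟩ : ∃ e : ℕ, b - min a i + 2 ≤ e := ⟨(b - min a i + 2).toNat, Int.self_le_toNat _⟩
  set c := min a i - 1 with hc
  have hX : (tA A).IsGE X c := TStructure.t.isGE_of_ge X c a (by lia)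
  set S := Tower.ofTrunc (tA A) c X hX with hS
  have hz : IsZero (S.F 1) := Tower.ofTrunc_isZero (tA A) c X hX 1
    (TStructure.t.isGE_of_ge X _ a (by push_cast; lia))
  set N := m + 2 + e with hN
  have hv := hvan_shift hE c hX hz
  obtain ⟨eN⟩ := Tower.ofTrunc_isIso (tA A) c X hX N
    (TStructure.t.isLE_of_le X b _ (by push_cast [hN]; lia))
  obtain ⟨eN'⟩ := Tower.ofTrunc_isIso (tA A) c X hX (N + 1)
    (TStructure.t.isLE_of_le X b _ (by push_cast [hN]; lia))
  have hnull : ∀ f : S.F N ⟶ (S.shiftTail hz).F N, Tower.Null S (S.shiftTail hz) N f → f = 0 := by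
    intro f _
    exact zero_of_iso' eN ((shiftFunctor (DerivedCategory A) (1 : ℤ)).mapIso eN') h1 f
  have hmain := Tower.ext1_eq_zero hv N hnull m (by omega)
  have e1 := ofTrunc_B_iso X c hX (m + 1)
  have hi1 : c + ((m + 1 : ℕ) : ℤ) = i := by push_cast; lia
  rw [hi1] at e1
  exact ext_zero_of_piece k e1 (shift_single (q' := i - 1) e1 (by lia)) 1 (by push_cast; lia)
    hmain x

/-- `∑ hom (H ^ i, H ^ (i+1)) ≤ ∑ ext ^ 2 (H ^ i, H ^ i)` -/
theorem sum_hom_succ (hE : ExtHyp.{w'} k X) (a : ℤ) (n : ℕ) (ha : X.IsGE a)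
    (hb : X.IsLE (a + n - 1)) (h1 : ∀ f : X ⟶ X⟦(1 : ℤ)⟧, f = 0) :
    ∑ j ∈ Finset.range n, finrank k (Hc X (a + j) ⟶ Hc X (a + j + 1)) ≤
      ∑ j ∈ Finset.range n,
        finrank k (Abelian.Ext.{w'} (Hc X (a + j)) (Hc X (a + j)) 2) := by
  set c := a - 1 with hc
  have hX : (tA A).IsGE X c := TStructure.t.isGE_of_ge X c a (by lia)
  set S := Tower.ofTrunc (tA A) c X hX with hS
  have hz : IsZero (S.F 1) := Tower.ofTrunc_isZero (tA A) c X hX 1
    (TStructure.t.isGE_of_ge X _ a (by push_cast; lia))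
  have hv := hvan_shift hE c hX hz
  obtain ⟨eN⟩ := Tower.ofTrunc_isIso (tA A) c X hX (n + 1)
    (TStructure.t.isLE_of_le X (a + n - 1) _ (by push_cast; lia))
  obtain ⟨eN'⟩ := Tower.ofTrunc_isIso (tA A) c X hX (n + 1 + 1)
    (TStructure.t.isLE_of_le X (a + n - 1) _ (by push_cast; lia))
  have h := Tower.sum_le (k := k) hv (fin_shift hE c hX hz) (fin_shift₁ hE c hX hz) (n + 1)
  have h0 : finrank k (S.F (n + 1) ⟶ (S.shiftTail hz).F (n + 1)) = 0 := by
    have : Subsingleton (S.F (n + 1) ⟶ (S.shiftTail hz).F (n + 1)) := by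
      refine ⟨fun f g => ?_⟩
      rw [zero_of_iso' eN ((shiftFunctor (DerivedCategory A) (1 : ℤ)).mapIso eN') h1 f,
        zero_of_iso' eN ((shiftFunctor (DerivedCategory A) (1 : ℤ)).mapIso eN') h1 g]
    exact finrank_zero_of_subsingleton
  rw [h0, zero_add, Finset.sum_range_succ'] at h
  have h2 : n + 1 - 1 = n := rfl
  rw [h2] at h
  refine le_trans (le_of_eq ?_) ((Nat.le_add_right _ _).trans (h.trans (le_of_eq ?_)))
  · refine Finset.sum_congr rfl fun j _ => ?_
    have e1 := ofTrunc_B_iso X c hX (j + 1)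
    have e2 := ofTrunc_B_iso X c hX (j + 1 + 1)
    have hi1 : c + ((j + 1 : ℕ) : ℤ) = a + j := by push_cast; lia
    have hi2 : c + ((j + 1 + 1 : ℕ) : ℤ) = a + j + 1 := by push_cast; lia
    rw [hi1] at e1
    rw [hi2] at e2
    rw [← finrank_ext₀.{w'}]
    exact (finrank_piece e1 (shift_single (q' := a + j) e2 (by lia)) 0 (by simp)).symm
  · refine Finset.sum_congr rfl fun j _ => ?_
    have e1 := ofTrunc_B_iso X c hX (j + 1)
    have hi1 : c + ((j + 1 : ℕ) : ℤ) = a + j := by push_cast; lia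
    rw [hi1] at e1
    exact finrank_piece e1 (shift_single (q' := a + j - 1 - 1)
      (shift_single (q' := a + j - 1) e1 (by lia)) (by lia)) 2 (by push_cast; lia)

end Final

end FDim
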