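import Pool.Agent.Work.MP_f714fc_ag.TruncTower

/-!
The key lemma of note 6433: a bounded object `X` with `hom(X, X) + hom(X, X[1]) ≤ 1` whose
cohomology objects satisfy the inequalities (L1), (L2) has `hom(X, X[2]) = 0`.
-/

open CategoryTheory Limits Pretriangulated Triangulated Module

universe v u

namespace FanoDim

variable {C : Type u} [Category.{v} C] [Preadditive C]
  [HasZeroObject C] [HasShift C ℤ] [∀ (n : ℤ), (shiftFunctor C n).Additive]
  [Pretriangulated C]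

section Shift

variable (k : Type*) [Field k] [Linear k C] [∀ (n : ℤ), (shiftFunctor C n).Linear k]

/-- Shifting source and target by different amounts. -/
noncomputable def shiftHomOfIso {X Y Z : C} {n : ℤ} (e : Z ≅ Y⟦n⟧) (p q m : ℤ)
    (h : q + m = n + p) : (X ⟶ Z) ≃ₗ[k] (X⟦p⟧ ⟶ Y⟦q⟧⟦m⟧) :=
  (Linear.homCongr k (Iso.refl X) e).trans <|
    (LinearEquiv.ofBijective ((shiftFunctor C p).mapLinearMap k)
      ⟨(shiftFunctor C p).map_injective, (shiftFunctor C p).map_surjective⟩).trans <|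
    Linear.homCongr k (Iso.refl _)
      ((shiftFunctorAdd' C n p (n + p) rfl).symm.app Y ≪≫ (shiftFunctorAdd' C q m (n + p) h).app Y)

/-- The isomorphism `Y⟦1⟧⟦1⟧ ≅ Y⟦2⟧`. -/
noncomputable def isoTwo (Y : C) : Y⟦(1 : ℤ)⟧⟦(1 : ℤ)⟧ ≅ Y⟦(2 : ℤ)⟧ :=
  (shiftFunctorAdd' C 1 1 2 rfl).symm.app Y

/-- The isomorphism `Y ≅ Y⟦0⟧`. -/
noncomputable def isoZero (Y : C) : Y ≅ Y⟦(0 : ℤ)⟧ :=
  (shiftFunctorZero C ℤ).symm.app Y

/-- The dimension of `Hom(A, B[n])`. -/
noncomputable def ext (A B : C) (n : ℤ) : ℕ := finrank k (A ⟶ B⟦n⟧)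

end Shift

/-- Hypotheses on a class of objects (the coherent sheaves in degree zero of the heart). -/
structure SurfaceLike (k : Type*) [Field k] [Linear k C] (P : C → Prop) : Prop where
  fin : ∀ A B, P A → P B → ∀ n : ℤ, Module.Finite k (A ⟶ B⟦n⟧)
  van : ∀ A B, P A → P B → ∀ n : ℤ, 3 ≤ n → ∀ f : A ⟶ B⟦n⟧, f = 0
  one : ∀ A B, P A → P B → ext k B A 2 ≤ ext k A B 0 + ext k B A 1
  two : ∀ A, P A → ¬ IsZero A → ext k A A 2 + 1 ≤ ext k A A 0 + ext k A A 1

section Main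

variable {k : Type*} [Field k] [Linear k C] [∀ (n : ℤ), (shiftFunctor C n).Linear k]
  {t : TStructure C} {P : C → Prop}

lemma good_self (hP : SurfaceLike k P) (T : Tower t) (hT : ∀ i, P ((T.H i)⟦i⟧)) :
    Tower.Good k T T where
  fin i j := by
    have := hP.fin _ _ (hT i) (hT j) (i - j)
    exact Module.Finite.equiv
      (shiftHomOfIso k (isoZero (T.H j)) i j (i - j) (by omega)).symm
  fin1 i j := by
    have := hP.fin _ _ (hT i) (hT j) (1 + i - j)
    exact Module.Finite.equiv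
      (shiftHomOfIso k (Iso.refl ((T.H j)⟦(1 : ℤ)⟧)) i j (1 + i - j) (by omega)).symm
  van i j hij f := by
    apply (shiftHomOfIso k (Iso.refl ((T.H j)⟦(1 : ℤ)⟧)) i j (1 + i - j) (by omega)).injective
    rw [map_zero]
    exact hP.van _ _ (hT i) (hT j) _ (by omega) _

lemma good_shift (hP : SurfaceLike k P) (T : Tower t) (hT : ∀ i, P ((T.H i)⟦i⟧)) :
    Tower.Good k T T.shift where
  fin i j := by
    have := hP.fin _ _ (hT i) (hT (j + 1)) (i - j)
    exact Module.Finite.equiv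
      (shiftHomOfIso k (Iso.refl ((T.H (j + 1))⟦(1 : ℤ)⟧)) i (j + 1) (i - j) (by omega)).symm
  fin1 i j := by
    have := hP.fin _ _ (hT i) (hT (j + 1)) (1 + i - j)
    exact Module.Finite.equiv
      (shiftHomOfIso k (isoTwo (T.H (j + 1))) i (j + 1) (1 + i - j) (by omega)).symm
  van i j hij := by
    change ∀ f : T.H i ⟶ (T.H (j + 1))⟦(1 : ℤ)⟧⟦(1 : ℤ)⟧, f = 0
    intro f
    apply (shiftHomOfIso k (isoTwo (T.H (j + 1))) i (j + 1) (1 + i - j) (by omega)).injective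
    rw [map_zero]
    exact hP.van _ _ (hT i) (hT (j + 1)) _ (by omega) _

/-- `hom(F_i, F_i)`. -/
noncomputable def dD (k : Type*) [Field k] [Linear k C] (T : Tower t) (i : ℤ) : ℕ :=
  finrank k (T.F i ⟶ T.F i)

/-- `hom(F_i, F_(i+1)[1])`. -/
noncomputable def dE (k : Type*) [Field k] [Linear k C] (T : Tower t) (i : ℤ) : ℕ :=
  finrank k (T.F i ⟶ (T.F (i + 1))⟦(1 : ℤ)⟧)

/-- The cohomology object in the heart. -/
abbrev Tower.A (T : Tower t) (i : ℤ) : C := (T.H i)⟦i⟧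

lemma step_one (hP : SurfaceLike k P) (T : Tower t) (hT : ∀ i, P (T.A i)) (l : ℤ) :
    dD k T (l + 1) + ext k (T.A (l + 1)) (T.A (l + 1)) 0 ≤
      dD k T (l + 1 + 1) + ext k (T.A l) (T.A (l + 1)) 0 := by
  have h1 := Tower.step (good_self hP T hT) l
  have h2 := hP.one _ _ (hT l) (hT (l + 1))
  have e0 : finrank k (T.H (l + 1) ⟶ T.H (l + 1)) = ext k (T.A (l + 1)) (T.A (l + 1)) 0 :=
    (shiftHomOfIso k (isoZero (T.H (l + 1))) (l + 1) (l + 1) 0 (by omega)).finrank_eq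
  have e1 : finrank k (T.H (l + 1) ⟶ T.H l) = ext k (T.A (l + 1)) (T.A l) 1 :=
    (shiftHomOfIso k (isoZero (T.H l)) (l + 1) l 1 (by omega)).finrank_eq
  have e2 : finrank k (T.H (l + 1) ⟶ (T.H l)⟦(1 : ℤ)⟧) = ext k (T.A (l + 1)) (T.A l) 2 :=
    (shiftHomOfIso k (Iso.refl ((T.H l)⟦(1 : ℤ)⟧)) (l + 1) l 2 (by omega)).finrank_eq
  rw [e0, e1, e2] at h1
  unfold dD
  omega

open Classical in
/-- `1` for a nonzero object. -/
noncomputable def nu (X : C) : ℕ := if IsZero X then 0 else 1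

lemma step_two (hP : SurfaceLike k P) (T : Tower t) (hT : ∀ i, P (T.A i)) (l : ℤ) :
    dE k T (l + 1) + ext k (T.A (l + 1)) (T.A (l + 1 + 1)) 0 + nu (T.A (l + 1)) ≤
      dE k T (l + 1 + 1) + ext k (T.A (l + 1)) (T.A (l + 1)) 0 := by
  have h1 := Tower.step (good_shift hP T hT) l
  have h2 : ext k (T.A (l + 1)) (T.A (l + 1)) 2 + nu (T.A (l + 1)) ≤
      ext k (T.A (l + 1)) (T.A (l + 1)) 0 + ext k (T.A (l + 1)) (T.A (l + 1)) 1 := by
    by_cases hz : IsZero (T.A (l + 1))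
    · have h3 : ext k (T.A (l + 1)) (T.A (l + 1)) 2 = 0 := by
        have : Subsingleton (T.A (l + 1) ⟶ (T.A (l + 1))⟦(2 : ℤ)⟧) :=
          ⟨fun a b => hz.eq_of_src a b⟩
        exact Module.finrank_zero_of_subsingleton
      rw [h3, nu, if_pos hz]
      omega
    · rw [nu, if_neg hz]
      exact hP.two _ (hT (l + 1)) hz
  have e0 : finrank k (T.H (l + 1) ⟶ (T.H (l + 1 + 1))⟦(1 : ℤ)⟧) =
      ext k (T.A (l + 1)) (T.A (l + 1 + 1)) 0 :=
    (shiftHomOfIso k (Iso.refl ((T.H (l + 1 + 1))⟦(1 : ℤ)⟧)) (l + 1) (l + 1 + 1) 0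
      (by omega)).finrank_eq
  have e1 : finrank k (T.H (l + 1) ⟶ (T.H (l + 1))⟦(1 : ℤ)⟧) =
      ext k (T.A (l + 1)) (T.A (l + 1)) 1 :=
    (shiftHomOfIso k (Iso.refl ((T.H (l + 1))⟦(1 : ℤ)⟧)) (l + 1) (l + 1) 1
      (by omega)).finrank_eq
  have e2 : finrank k (T.H (l + 1) ⟶ (T.H (l + 1))⟦(1 : ℤ)⟧⟦(1 : ℤ)⟧) =
      ext k (T.A (l + 1)) (T.A (l + 1)) 2 :=
    (shiftHomOfIso k (isoTwo (T.H (l + 1))) (l + 1) (l + 1) 2 (by omega)).finrank_eq
  have h3 : dE k T (l + 1) + finrank k (T.H (l + 1) ⟶ (T.H (l + 1 + 1))⟦(1 : ℤ)⟧) +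
      finrank k (T.H (l + 1) ⟶ (T.H (l + 1))⟦(1 : ℤ)⟧) ≤
      dE k T (l + 1 + 1) + finrank k (T.H (l + 1) ⟶ (T.H (l + 1))⟦(1 : ℤ)⟧⟦(1 : ℤ)⟧) := h1
  rw [e0, e1, e2] at h3
  omega

/-- The quantity which increases by `nu` at each step. -/
noncomputable def psi (k : Type*) [Field k] [Linear k C] (T : Tower t) (l : ℤ) : ℤ :=
  (dD k T (l + 1) : ℤ) + dE k T (l + 1) - ext k (T.A l) (T.A (l + 1)) 0

lemma psi_step (hP : SurfaceLike k P) (T : Tower t) (hT : ∀ i, P (T.A i)) (l : ℤ) :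
    psi k T l + nu (T.A (l + 1)) ≤ psi k T (l + 1) := by
  have h1 := step_one hP T hT l
  have h2 := step_two hP T hT l
  unfold psi
  omega

omit [∀ (n : ℤ), (shiftFunctor C n).Linear k] in
lemma psi_bot (T : Tower t) (l : ℤ) (hl : l + 1 ≤ T.bot) : psi k T l = 0 := by
  have h1 : dD k T (l + 1) = 0 := by
    have : Subsingleton (T.F (l + 1) ⟶ T.F (l + 1)) :=
      ⟨fun a b => (T.zero _ hl).eq_of_src a b⟩
    exact Module.finrank_zero_of_subsingleton
  have h2 : dE k T (l + 1) = 0 := by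
    have : Subsingleton (T.F (l + 1) ⟶ (T.F (l + 1 + 1))⟦(1 : ℤ)⟧) :=
      ⟨fun a b => (T.zero _ hl).eq_of_src a b⟩
    exact Module.finrank_zero_of_subsingleton
  have h3 : IsZero (T.H l) :=
    Triangle.isZero₃_of_isZero₁₂ _ (T.dist l) (T.zero _ (by omega)) (T.zero _ hl)
  have h4 : ext k (T.A l) (T.A (l + 1)) 0 = 0 := by
    have : Subsingleton (T.A l ⟶ (T.A (l + 1))⟦(0 : ℤ)⟧) :=
      ⟨fun a b => ((shiftFunctor C l).map_isZero h3).eq_of_src a b⟩
    exact Module.finrank_zero_of_subsingleton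
  unfold psi
  rw [h1, h2, h4]
  simp

lemma psi_mono (hP : SurfaceLike k P) (T : Tower t) (hT : ∀ i, P (T.A i)) :
    Monotone (psi k T) := by
  refine monotone_int_of_le_succ fun l => ?_
  have := psi_step hP T hT l
  omega

lemma psi_nonneg (hP : SurfaceLike k P) (T : Tower t) (hT : ∀ i, P (T.A i)) (l : ℤ) :
    0 ≤ psi k T l := by
  rw [← psi_bot (k := k) T (min l (T.bot - 1)) (by omega)]
  exact psi_mono hP T hT (min_le_left _ _)

/-- At most one nonzero factor. -/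
lemma unique_factor (hP : SurfaceLike k P) (T : Tower t) (hT : ∀ i, P (T.A i)) (m : ℤ)
    (hm : dD k T (m + 1) + dE k T (m + 1) ≤ 1) (i j : ℤ) (hij : i < j) (hjm : j ≤ m)
    (hi : ¬ IsZero (T.A i)) : IsZero (T.A j) := by
  by_contra hj
  have h1 := psi_step hP T hT (i - 1)
  rw [sub_add_cancel, nu, if_neg hi] at h1
  have h2 := psi_step hP T hT (j - 1)
  rw [sub_add_cancel, nu, if_neg hj] at h2
  have h3 := psi_mono hP T hT (show i ≤ j - 1 by omega)
  have h4 := psi_mono hP T hT hjm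
  have h5 := psi_nonneg hP T hT (i - 1)
  have h6 : psi k T m ≤ dD k T (m + 1) + dE k T (m + 1) := by
    unfold psi
    omega
  omega

/-- A tower with a single nonzero factor. -/
lemma single_factor (T : Tower t) (i m : ℤ) (him : i ≤ m)
    (h : ∀ j ≤ m, j ≠ i → IsZero (T.H j)) : Nonempty (T.F (m + 1) ≅ T.H i) := by
  have h1 : ∀ l ≤ i, IsZero (T.F l) := by
    refine T.induct _ (fun l hl _ => T.zero l hl) ?_
    intro l hl hli
    exact Triangle.isZero₂_of_isZero₁₃ _ (T.dist l) (hl (by omega))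
      (h l (by omega) (by omega))
  have h2 : IsIso (T.g i) := Triangle.isZero₁_iff_isIso₂ _ (T.dist i) |>.1 (h1 i le_rfl)
  have h3 : ∀ l, i + 1 ≤ l → l ≤ m + 1 → Nonempty (T.F l ≅ T.H i) := by
    intro l hl
    induction l, hl using Int.leInduction with
    | base =>
      intro _
      exact ⟨asIso (T.g i)⟩
    | succ l hl ih =>
      intro hlm
      obtain ⟨e⟩ := ih (by omega)
      have h4 : IsIso (T.f l) := Triangle.isZero₃_iff_isIso₁ _ (T.dist l) |>.1
        (h l (by omega) (by omega))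
      exact ⟨(asIso (T.f l)).symm ≪≫ e⟩
  exact h3 (m + 1) (by omega) le_rfl

omit [HasZeroObject C] [∀ (n : ℤ), (shiftFunctor C n).Additive] [Pretriangulated C] in
lemma isZero_of_shift {X : C} (n : ℤ) (h : IsZero (X⟦n⟧)) : IsZero X :=
  ((shiftFunctor C (-n)).map_isZero h).of_iso ((shiftEquiv C n).unitIso.app X)

/-- The tower of truncations. -/
noncomputable def Tower.ofObj [IsTriangulated C] (t : TStructure C) (X : C) (a : ℤ)
    [t.IsGE X a] : Tower t where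
  F i := (t.truncLT i).obj X
  H i := (t.truncGELT i (i + 1)).obj X
  f i := (t.natTransTruncLTOfLE i (i + 1) (by omega)).app X
  g i := (t.truncGEπ i).app ((t.truncLT (i + 1)).obj X)
  h i := (t.truncGELTδLT i (i + 1)).app X
  dist i := t.triangleLTLTGELT_distinguished i (i + 1) _ X
  le i := inferInstance
  leH i := by
    have h : t.IsLE ((t.truncGELT i (i + 1)).obj X) (i + 1 - 1) := inferInstance
    rwa [add_sub_cancel_right] at h
  geH i := inferInstance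
  bot := a
  zero i hi := by
    have h : t.IsGE X i := t.isGE_of_ge X i a hi
    exact t.isZero_truncLT_obj_of_isGE i X

variable [IsTriangulated C]

/-- **Key lemma.** A bounded object whose cohomology objects lie in a surface-like class and
with `hom(X, X) + hom(X, X[1]) ≤ 1` satisfies `hom(X, X[2]) = 0`. -/
theorem key_lemma (hP : SurfaceLike k P) (X : C) (a b : ℤ) (ha : t.IsGE X a) (hb : t.IsLE X b)
    (hX : ∀ i : ℤ, P (((t.truncGELT i (i + 1)).obj X)⟦i⟧))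
    (h : finrank k (X ⟶ X) + finrank k (X ⟶ X⟦(1 : ℤ)⟧) ≤ 1) :
    finrank k (X ⟶ X⟦(2 : ℤ)⟧) = 0 := by
  let T : Tower t := Tower.ofObj t X a
  have hT : ∀ i, P (T.A i) := hX
  have e : ∀ i, b + 1 ≤ i → Nonempty (T.F i ≅ X) := by
    intro i hi
    have h1 : t.IsLE X (i - 1) := t.isLE_of_le X b (i - 1)
    have h2 : IsIso ((t.truncLTι i).app X) :=
      (t.isLE_iff_isIso_truncLTι_app (i - 1) i (by omega) X).1 h1
    exact ⟨@asIso C _ _ _ ((t.truncLTι i).app X) h2⟩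
  obtain ⟨e1⟩ := e (b + 1) (by omega)
  obtain ⟨e2⟩ := e (b + 1 + 1) (by omega)
  have hD : dD k T (b + 1) = finrank k (X ⟶ X) := (Linear.homCongr k e1 e1).finrank_eq
  have hE : dE k T (b + 1) = finrank k (X ⟶ X⟦(1 : ℤ)⟧) :=
    (Linear.homCongr k e1 ((shiftFunctor C (1 : ℤ)).mapIso e2)).finrank_eq
  have hu := unique_factor hP T hT b (by rw [hD, hE]; exact h)
  obtain ⟨i, hib, hi⟩ : ∃ i ≤ b, ∀ j ≤ b, j ≠ i → IsZero (T.H j) := by
    by_cases h0 : ∃ i ≤ b, ¬ IsZero (T.A i)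
    · obtain ⟨i, hib, hi⟩ := h0
      refine ⟨i, hib, fun j hj hji => isZero_of_shift j ?_⟩
      rcases lt_or_gt_of_ne hji with hlt | hgt
      · by_contra hj'
        exact hi (hu j i hlt hib hj')
      · exact hu i j hgt hj hi
    · push Not at h0
      exact ⟨b, le_rfl, fun j hj _ => isZero_of_shift j (h0 j hj)⟩
  obtain ⟨e3⟩ := single_factor T i b hib hi
  let e4 : X ≅ T.H i := e1.symm ≪≫ e3
  have e5 : ∀ n : ℤ, finrank k (X ⟶ X⟦n⟧) = ext k (T.A i) (T.A i) n := by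
    intro n
    rw [(Linear.homCongr k e4 ((shiftFunctor C n).mapIso e4)).finrank_eq]
    exact (shiftHomOfIso k (Iso.refl ((T.H i)⟦n⟧)) i i n (by omega)).finrank_eq
  have e6 : finrank k (X ⟶ X) = ext k (T.A i) (T.A i) 0 := by
    rw [← e5 0]
    exact (Linear.homCongr k (Iso.refl X) (isoZero X)).finrank_eq
  rw [e5 2]
  rw [e6, e5 1] at h
  by_cases hz : IsZero (T.A i)
  · have : Subsingleton (T.A i ⟶ (T.A i)⟦(2 : ℤ)⟧) := ⟨fun a b => hz.eq_of_src a b⟩
    exact Module.finrank_zero_of_subsingleton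
  · have := hP.two _ (hT i) hz
    omega

end Main

end FanoDim
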