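import Mathlib.LinearAlgebra.Dimension.Finite
import Mathlib.LinearAlgebra.FiniteDimensional.Lemmas
import Mathlib.Tactic.Linarith

/-!
The dimension count behind the truncation inequality (note 6433).
Nine finite dimensional spaces and the linear maps of the two long exact sequences.
-/

namespace FanoDim

open Module

variable {k : Type*} [Field k]

section
variable {V1 V2 V3 V4 : Type*} [AddCommGroup V1] [Module k V1] [AddCommGroup V2] [Module k V2]
  [AddCommGroup V3] [Module k V3] [AddCommGroup V4] [Module k V4]

/-- `0 → V1 → V2 → V3 → V4`, exact at `V3` and injective on the left. -/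
lemma finrank_le_of_left_exact [Module.Finite k V2]
    (a : V1 →ₗ[k] V2) (b : V2 →ₗ[k] V3) (c : V3 →ₗ[k] V4)
    (ha : Function.Injective a) (hba : ∀ x, b (a x) = 0)
    (hc : ∀ y, c y = 0 → ∃ x, b x = y) :
    finrank k V1 + finrank k (LinearMap.ker c) ≤ finrank k V2 := by
  have h1 : finrank k (LinearMap.range b) + finrank k (LinearMap.ker b) = finrank k V2 :=
    LinearMap.finrank_range_add_finrank_ker b
  have h2 : finrank k (LinearMap.range a) = finrank k V1 :=
    LinearMap.finrank_range_of_inj ha
  have h3 : LinearMap.range a ≤ LinearMap.ker b := by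
    rintro _ ⟨x, rfl⟩
    exact hba x
  have h4 : LinearMap.ker c ≤ LinearMap.range b := by
    intro y hy
    obtain ⟨x, hx⟩ := hc y hy
    exact ⟨x, hx⟩
  have h5 := Submodule.finrank_mono h3
  have h6 := Submodule.finrank_mono h4
  omega

/-- The middle term of an exact sequence with finite ends is finite. -/
lemma finite_of_exact [Module.Finite k V1] [Module.Finite k V3]
    (a : V1 →ₗ[k] V2) (b : V2 →ₗ[k] V3) (h : ∀ y, b y = 0 → ∃ x, a x = y) :
    Module.Finite k V2 := by
  have h1 : Module.Finite k (LinearMap.ker b) := by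
    have h2 : Module.Finite k (LinearMap.range a) := inferInstance
    exact Submodule.finiteDimensional_of_le (S₂ := LinearMap.range a) (by
      intro y hy
      obtain ⟨x, hx⟩ := h y hy
      exact ⟨x, hx⟩)
  have h3 : Module.Finite k (V2 ⧸ LinearMap.ker b) :=
    Module.Finite.equiv (LinearMap.quotKerEquivRange b).symm
  exact Module.Finite.of_submodule_quotient (LinearMap.ker b)

end

/-- The dimension count. -/
lemma dimension_count
    {FG FGp FC BC BG1 FpGp BGp BD FG1 BD1 : Type*}
    [AddCommGroup FG] [Module k FG] [AddCommGroup FGp] [Module k FGp]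
    [AddCommGroup FC] [Module k FC] [AddCommGroup BC] [Module k BC]
    [AddCommGroup BG1] [Module k BG1] [AddCommGroup FpGp] [Module k FpGp]
    [AddCommGroup BGp] [Module k BGp] [AddCommGroup BD] [Module k BD]
    [AddCommGroup FG1] [Module k FG1] [AddCommGroup BD1] [Module k BD1]
    [Module.Finite k FG] [Module.Finite k FGp] [Module.Finite k FC] [Module.Finite k BC]
    [Module.Finite k BG1] [Module.Finite k FpGp] [Module.Finite k BGp] [Module.Finite k BD1]
    (al : FGp →ₗ[k] FG) (be : FG →ₗ[k] FC) (ga : FC →ₗ[k] FG1)
    (rho : BC →ₗ[k] FC) (de : BC →ₗ[k] BG1) (w : BG1 →ₗ[k] FG1)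
    (u : FpGp →ₗ[k] BG1) (res : FGp →ₗ[k] FpGp) (pist : BGp →ₗ[k] FGp)
    (p : BGp →ₗ[k] BD) (q : BG1 →ₗ[k] BD1)
    (hal : Function.Injective al) (hbeal : ∀ x, be (al x) = 0)
    (hga : ∀ y, ga y = 0 → ∃ x, be x = y)
    (hrho : Function.Injective rho) (hgarho : ∀ x, ga (rho x) = w (de x))
    (hwu : ∀ x, w (u x) = 0)
    (hu : ∀ y, u y = 0 → ∃ x, res x = y) (hrespi : ∀ x, res (pist x) = 0)
    (hp : Function.Surjective p) (hpp : ∀ x, pist x = 0 → p x = 0)
    (hq : Function.Injective q) :
    finrank k FpGp + finrank k BC + finrank k BD ≤ finrank k FG + finrank k BD1 := by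
  have A := finrank_le_of_left_exact al be ga hal hbeal hga
  -- (b)
  have B1 : finrank k (LinearMap.ker (w.comp de)) ≤ finrank k (LinearMap.ker ga) := by
    let r : LinearMap.ker (w.comp de) →ₗ[k] LinearMap.ker ga :=
      LinearMap.restrict rho (by
        intro x hx
        rw [LinearMap.mem_ker] at hx ⊢
        rw [hgarho]
        exact hx)
    have hr : Function.Injective r := by
      intro x y hxy
      have h1 : rho x = rho y := congrArg Subtype.val hxy
      exact Subtype.ext (hrho h1)
    exact LinearMap.finrank_le_finrank_of_injective hr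
  have B2 := LinearMap.finrank_range_add_finrank_ker (w.comp de)
  have B3 : finrank k (LinearMap.range (w.comp de)) ≤ finrank k (LinearMap.range w) := by
    have : Module.Finite k (LinearMap.range w) := inferInstance
    exact Submodule.finrank_mono (LinearMap.range_comp_le_range de w)
  have B4 := LinearMap.finrank_range_add_finrank_ker w
  -- (c)
  have C1 : finrank k (LinearMap.range u) ≤ finrank k (LinearMap.ker w) := by
    refine Submodule.finrank_mono ?_
    rintro _ ⟨x, rfl⟩
    exact hwu x
  have C2 := LinearMap.finrank_range_add_finrank_ker u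
  -- (d)
  have D1 := LinearMap.finrank_range_add_finrank_ker res
  have D2 : finrank k (LinearMap.range pist) ≤ finrank k (LinearMap.ker res) := by
    refine Submodule.finrank_mono ?_
    rintro _ ⟨x, rfl⟩
    exact hrespi x
  have D3 : finrank k (LinearMap.ker u) ≤ finrank k (LinearMap.range res) := by
    refine Submodule.finrank_mono ?_
    intro y hy
    obtain ⟨x, hx⟩ := hu y hy
    exact ⟨x, hx⟩
  -- (e)
  have E1 := LinearMap.finrank_range_add_finrank_ker pist
  have E2 := LinearMap.finrank_range_add_finrank_ker p
  have E3 : finrank k (LinearMap.ker pist) ≤ finrank k (LinearMap.ker p) := by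
    refine Submodule.finrank_mono ?_
    intro x hx
    exact hpp x hx
  have E4 : finrank k (LinearMap.range p) = finrank k BD := by
    rw [LinearMap.range_eq_top.2 hp]
    exact finrank_top k BD
  have F1 : finrank k BG1 ≤ finrank k BD1 := LinearMap.finrank_le_finrank_of_injective hq
  omega

end FanoDim
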