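import Mathlib.CategoryTheory.Triangulated.TStructure.TruncLTGE
import Mathlib.CategoryTheory.Linear.LinearFunctor
import Pool.Agent.Work.MP_f714fc_ag.TruncLin

/-!
The induction step of the truncation inequality (note 6433, (E)).
-/

open CategoryTheory Limits Pretriangulated Triangulated Module

universe v u

namespace FanoDim

section Exact

variable {C : Type u} [Category.{v} C] [Preadditive C]
  [HasZeroObject C] [HasShift C ℤ] [∀ (n : ℤ), (shiftFunctor C n).Additive]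
  [Pretriangulated C]
  {X Y Z : C} {f : X ⟶ Y} {g : Y ⟶ Z} {h : Z ⟶ X⟦(1 : ℤ)⟧}

lemma ex_co₂ (hT : Triangle.mk f g h ∈ distTriang C) {W : C} (a : W ⟶ Y) (ha : a ≫ g = 0) :
    ∃ b : W ⟶ X, a = b ≫ f :=
  Triangle.coyoneda_exact₂ _ hT a ha

lemma ex_co₃ (hT : Triangle.mk f g h ∈ distTriang C) {W : C} (a : W ⟶ Z) (ha : a ≫ h = 0) :
    ∃ b : W ⟶ Y, a = b ≫ g :=
  Triangle.coyoneda_exact₃ _ hT a ha

lemma ex_co₁ (hT : Triangle.mk f g h ∈ distTriang C) {W : C} (a : W ⟶ X) (ha : a ≫ f = 0) :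
    ∃ (b : W ⟶ Z⟦(-1 : ℤ)⟧) (c : Z⟦(-1 : ℤ)⟧ ⟶ X), a = b ≫ c := by
  obtain ⟨b, hb⟩ := Triangle.coyoneda_exact₂ _ (inv_rot_of_distTriang _ hT) a ha
  exact ⟨b, _, hb⟩

lemma ex_yo₂ (hT : Triangle.mk f g h ∈ distTriang C) {W : C} (a : Y ⟶ W) (ha : f ≫ a = 0) :
    ∃ b : Z ⟶ W, a = g ≫ b :=
  Triangle.yoneda_exact₂ _ hT a ha

lemma ex_yo₃ (hT : Triangle.mk f g h ∈ distTriang C) {W : C} (a : Z ⟶ W) (ha : g ≫ a = 0) :
    ∃ b : X⟦(1 : ℤ)⟧ ⟶ W, a = h ≫ b :=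
  Triangle.yoneda_exact₃ _ hT a ha

lemma ex_yo₁ (hT : Triangle.mk f g h ∈ distTriang C) {W : C} (a : X ⟶ W)
    (ha : h ≫ a⟦(1 : ℤ)⟧' = 0) : ∃ b : Y ⟶ W, a = f ≫ b := by
  have h1 : ∃ c : Y⟦(1 : ℤ)⟧ ⟶ W⟦(1 : ℤ)⟧, a⟦(1 : ℤ)⟧' = (-f⟦(1 : ℤ)⟧') ≫ c :=
    Triangle.yoneda_exact₂ _ (rot_of_distTriang _ (rot_of_distTriang _ hT)) (a⟦(1 : ℤ)⟧') ha
  obtain ⟨c, hc⟩ := h1
  obtain ⟨b, rfl⟩ := (shiftFunctor C (1 : ℤ)).map_surjective c
  refine ⟨-b, ?_⟩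
  apply (shiftFunctor C (1 : ℤ)).map_injective
  rw [hc]
  simp

lemma shift_dist (hT : Triangle.mk f g h ∈ distTriang C) (n : ℤ) :
    Triangle.mk (n.negOnePow • f⟦n⟧') (n.negOnePow • g⟦n⟧')
      (n.negOnePow • h⟦n⟧' ≫ (shiftFunctorComm C 1 n).hom.app X) ∈ distTriang C :=
  Triangle.shift_distinguished _ hT n

lemma ex_co₂_shift (hT : Triangle.mk f g h ∈ distTriang C) (n : ℤ) {W : C} (a : W ⟶ Y⟦n⟧)
    (ha : a ≫ g⟦n⟧' = 0) : ∃ b : W ⟶ X⟦n⟧, a = b ≫ f⟦n⟧' := by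
  have h1 : a ≫ (n.negOnePow • g⟦n⟧') = 0 := by
    rw [Linear.comp_units_smul, ha, smul_zero]
  obtain ⟨b, hb⟩ := ex_co₂ (shift_dist hT n) a h1
  refine ⟨n.negOnePow • b, ?_⟩
  rw [hb, Linear.comp_units_smul, Linear.units_smul_comp]

end Exact

section Step

variable {k : Type*} [Field k] {C : Type u} [Category.{v} C] [Preadditive C] [Linear k C]
  [HasZeroObject C] [HasShift C ℤ] [∀ (n : ℤ), (shiftFunctor C n).Additive]
  [∀ (n : ℤ), (shiftFunctor C n).Linear k] [Pretriangulated C]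

omit [HasZeroObject C] [Pretriangulated C] in
lemma injective_of_ker {V W : Type*} [AddCommGroup V] [Module k V] [AddCommGroup W] [Module k W]
    (a : V →ₗ[k] W) (h : ∀ x, a x = 0 → x = 0) : Function.Injective a := by
  rw [← LinearMap.ker_eq_bot, LinearMap.ker_eq_bot']
  exact h

/-- The induction step. -/
lemma trunc_step (t : TStructure C) (m : ℤ)
    {F' F B G' G A G'' D : C}
    {i₁ : F' ⟶ F} {i₂ : F ⟶ B} {i₃ : B ⟶ F'⟦(1 : ℤ)⟧} (hF : Triangle.mk i₁ i₂ i₃ ∈ distTriang C)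
    {j₁ : G' ⟶ G} {j₂ : G ⟶ A} {j₃ : A ⟶ G'⟦(1 : ℤ)⟧} (hG : Triangle.mk j₁ j₂ j₃ ∈ distTriang C)
    {l₁ : G'' ⟶ G'} {l₂ : G' ⟶ D} {l₃ : D ⟶ G''⟦(1 : ℤ)⟧}
    (hG' : Triangle.mk l₁ l₂ l₃ ∈ distTriang C)
    (hF'le : t.IsLE F' (m - 1)) (hBle : t.IsLE B m) (hAge : t.IsGE A m)
    (hDge : t.IsGE D (m - 1))
    (hvan : ∀ f : B ⟶ G''⟦(1 : ℤ)⟧, f = 0)
    (fFG : Module.Finite k (F ⟶ G)) (fFG' : Module.Finite k (F ⟶ G'))
    (fFA : Module.Finite k (F ⟶ A)) (fBA : Module.Finite k (B ⟶ A))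
    (fBG1 : Module.Finite k (B ⟶ G'⟦(1 : ℤ)⟧)) (fF'G' : Module.Finite k (F' ⟶ G'))
    (fBG' : Module.Finite k (B ⟶ G')) (fBD1 : Module.Finite k (B ⟶ D⟦(1 : ℤ)⟧)) :
    finrank k (F' ⟶ G') + finrank k (B ⟶ A) + finrank k (B ⟶ D) ≤
      finrank k (F ⟶ G) + finrank k (B ⟶ D⟦(1 : ℤ)⟧) := by
  have hFle : t.IsLE F m := t.isLE₂ _ hF m (t.isLE_of_le F' (m - 1) m) hBle
  have hF1 : t.IsLE (F'⟦(1 : ℤ)⟧) (m - 2) := t.isLE_shift F' (m - 1) 1 (m - 2)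
  have hA1 : t.IsGE (A⟦(-1 : ℤ)⟧) (m + 1) := t.isGE_shift A m (-1) (m + 1)
  have i12 : i₁ ≫ i₂ = 0 := comp_distTriang_mor_zero₁₂ _ hF
  have i23 : i₂ ≫ i₃ = 0 := comp_distTriang_mor_zero₂₃ _ hF
  have j12 : j₁ ≫ j₂ = 0 := comp_distTriang_mor_zero₁₂ _ hG
  refine dimension_count
    (al := Linear.rightComp k F j₁) (be := Linear.rightComp k F j₂)
    (ga := Linear.rightComp k F j₃) (rho := Linear.leftComp k A i₂)
    (de := Linear.rightComp k B j₃) (w := Linear.leftComp k (G'⟦(1 : ℤ)⟧) i₂)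
    (u := (Linear.leftComp k (G'⟦(1 : ℤ)⟧) i₃).comp ((shiftFunctor C (1 : ℤ)).mapLinearMap k))
    (res := Linear.leftComp k G' i₁) (pist := Linear.leftComp k G' i₂)
    (p := Linear.rightComp k B l₂) (q := Linear.rightComp k B (l₂⟦(1 : ℤ)⟧'))
    ?_ ?_ ?_ ?_ ?_ ?_ ?_ ?_ ?_ ?_ ?_
  · -- injectivity of `al`
    refine injective_of_ker _ fun f hf => ?_
    simp only [Linear.rightComp_apply] at hf
    obtain ⟨g, c, hg⟩ := ex_co₁ hG f hf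
    have hz : g = 0 := t.zero g m (m + 1)
    rw [hg, hz, zero_comp]
  · intro x
    simp [j12]
  · intro y hy
    simp only [Linear.rightComp_apply] at hy
    obtain ⟨x, hx⟩ := ex_co₃ hG y hy
    exact ⟨x, hx.symm⟩
  · -- injectivity of `rho`
    refine injective_of_ker _ fun f hf => ?_
    simp only [Linear.leftComp_apply] at hf
    obtain ⟨g, hg⟩ := ex_yo₃ hF f hf
    have hz : g = 0 := t.zero g (m - 2) m
    rw [hg, hz, comp_zero]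
  · intro x
    simp
  · intro x
    simp only [LinearMap.comp_apply, Linear.leftComp_apply]
    rw [← Category.assoc, i23, zero_comp]
  · intro y hy
    simp only [LinearMap.comp_apply, Linear.leftComp_apply, Functor.mapLinearMap_apply] at hy
    obtain ⟨g, hg⟩ := ex_yo₁ hF y hy
    exact ⟨g, hg.symm⟩
  · intro x
    simp only [Linear.leftComp_apply]
    rw [← Category.assoc, i12, zero_comp]
  · intro y
    obtain ⟨x, hx⟩ := ex_co₃ hG' y (hvan _)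
    exact ⟨x, hx.symm⟩
  · intro x hx
    simp only [Linear.leftComp_apply, Linear.rightComp_apply] at hx ⊢
    obtain ⟨g, hg⟩ := ex_yo₃ hF x hx
    have hz : g ≫ l₂ = 0 := t.zero (g ≫ l₂) (m - 2) (m - 1)
    rw [hg, Category.assoc, hz, comp_zero]
  · refine injective_of_ker _ fun f hf => ?_
    simp only [Linear.rightComp_apply] at hf
    obtain ⟨g, hg⟩ := ex_co₂_shift hG' 1 f hf
    rw [hg, hvan g, zero_comp]

end Step

end FanoDim
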