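import Pool.Agent.Work.MP_f714fc_ag.TruncStep

/-!
Towers for a t-structure and the truncation inequality (E) of note 6433.
-/

open CategoryTheory Limits Pretriangulated Triangulated Module

universe v u

namespace FanoDim

variable {C : Type u} [Category.{v} C] [Preadditive C]
  [HasZeroObject C] [HasShift C ℤ] [∀ (n : ℤ), (shiftFunctor C n).Additive]
  [Pretriangulated C]

/-- A tower: triangles `F i ⟶ F (i + 1) ⟶ H i ⟶ (F i)⟦1⟧` with `F i < i` and `H i` pure of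
degree `i`, and `F i = 0` for small `i`. -/
structure Tower (t : TStructure C) where
  /-- the steps -/
  F : ℤ → C
  /-- the factors -/
  H : ℤ → C
  /-- inclusion -/
  f : ∀ i, F i ⟶ F (i + 1)
  /-- projection -/
  g : ∀ i, F (i + 1) ⟶ H i
  /-- connecting map -/
  h : ∀ i, H i ⟶ (F i)⟦(1 : ℤ)⟧
  dist : ∀ i, Triangle.mk (f i) (g i) (h i) ∈ distTriang C
  le : ∀ i, t.IsLE (F i) (i - 1)
  leH : ∀ i, t.IsLE (H i) i
  geH : ∀ i, t.IsGE (H i) i
  /-- below this index the steps vanish -/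
  bot : ℤ
  zero : ∀ i ≤ bot, IsZero (F i)

namespace Tower

variable {t : TStructure C}

/-- The shifted tower. -/
def shift (T : Tower t) : Tower t where
  F i := (T.F (i + 1))⟦(1 : ℤ)⟧
  H i := (T.H (i + 1))⟦(1 : ℤ)⟧
  f i := (1 : ℤ).negOnePow • (T.f (i + 1))⟦(1 : ℤ)⟧'
  g i := (1 : ℤ).negOnePow • (T.g (i + 1))⟦(1 : ℤ)⟧'
  h i := (1 : ℤ).negOnePow • (T.h (i + 1))⟦(1 : ℤ)⟧' ≫ (shiftFunctorComm C 1 (1 : ℤ)).hom.app _
  dist i := shift_dist (T.dist (i + 1)) 1
  le i := by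
    have := T.le (i + 1)
    exact t.isLE_shift _ (i + 1 - 1) 1 (i - 1)
  leH i := by
    have := T.leH (i + 1)
    exact t.isLE_shift _ (i + 1) 1 i
  geH i := by
    have := T.geH (i + 1)
    exact t.isGE_shift _ (i + 1) 1 i
  bot := T.bot - 1
  zero i hi := (shiftFunctor C (1 : ℤ)).map_isZero (T.zero (i + 1) (by omega))

lemma induct (T : Tower t) (Q : ℤ → Prop) (h0 : ∀ i ≤ T.bot, Q i) (h1 : ∀ i, Q i → Q (i + 1)) :
    ∀ i, Q i := by
  intro i
  by_cases hi : i ≤ T.bot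
  · exact h0 i hi
  · obtain ⟨n, hn⟩ := Int.eq_ofNat_of_zero_le (show 0 ≤ i - T.bot by omega)
    obtain rfl : i = T.bot + n := by omega
    clear hi hn
    induction n with
    | zero => exact h0 _ (by simp)
    | succ n ih =>
      have := h1 _ ih
      rw [Nat.cast_succ, ← add_assoc]
      exact this

end Tower

section

variable {k : Type*} [Field k] [Linear k C] [∀ (n : ℤ), (shiftFunctor C n).Linear k]

omit [HasZeroObject C] [HasShift C ℤ] [∀ (n : ℤ), (shiftFunctor C n).Additive]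
  [Pretriangulated C] in
lemma finite_to_zero (X : C) {Z : C} (hZ : IsZero Z) : Module.Finite k (X ⟶ Z) := by
  have : Subsingleton (X ⟶ Z) := ⟨fun a b => hZ.eq_of_tgt a b⟩
  infer_instance

omit [HasZeroObject C] [HasShift C ℤ] [∀ (n : ℤ), (shiftFunctor C n).Additive]
  [Pretriangulated C] in
lemma finite_from_zero (X : C) {Z : C} (hZ : IsZero Z) : Module.Finite k (Z ⟶ X) := by
  have : Subsingleton (Z ⟶ X) := ⟨fun a b => hZ.eq_of_src a b⟩
  infer_instance

namespace Tower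

variable {t : TStructure C}

omit [∀ (n : ℤ), (shiftFunctor C n).Linear k] in
lemma finite_right (T : Tower t) (X : C) (hH : ∀ i, Module.Finite k (X ⟶ T.H i)) (i : ℤ) :
    Module.Finite k (X ⟶ T.F i) := by
  revert i
  refine T.induct _ (fun i hi => finite_to_zero X (T.zero i hi)) ?_
  intro i hi
  have := hH i
  refine finite_of_exact (Linear.rightComp k X (T.f i)) (Linear.rightComp k X (T.g i)) ?_
  intro y hy
  obtain ⟨x, hx⟩ := ex_co₂ (T.dist i) y hy
  exact ⟨x, hx.symm⟩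

omit [∀ (n : ℤ), (shiftFunctor C n).Linear k] in
lemma finite_right_shift (T : Tower t) (X : C)
    (hH : ∀ i, Module.Finite k (X ⟶ (T.H i)⟦(1 : ℤ)⟧)) (i : ℤ) :
    Module.Finite k (X ⟶ (T.F i)⟦(1 : ℤ)⟧) := by
  have h := T.shift.finite_right (k := k) X (fun i => hH (i + 1)) (i - 1)
  change Module.Finite k (X ⟶ (T.F (i - 1 + 1))⟦(1 : ℤ)⟧) at h
  rwa [sub_add_cancel] at h

omit [∀ (n : ℤ), (shiftFunctor C n).Linear k] in
lemma finite_left (T : Tower t) (Y : C) (hH : ∀ i, Module.Finite k (T.H i ⟶ Y)) (i : ℤ) :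
    Module.Finite k (T.F i ⟶ Y) := by
  revert i
  refine T.induct _ (fun i hi => finite_from_zero Y (T.zero i hi)) ?_
  intro i hi
  have := hH i
  refine finite_of_exact (Linear.leftComp k Y (T.g i)) (Linear.leftComp k Y (T.f i)) ?_
  intro y hy
  obtain ⟨x, hx⟩ := ex_yo₂ (T.dist i) y hy
  exact ⟨x, hx.symm⟩

lemma van_right (T : Tower t) (X : C) (m : ℤ)
    (hH : ∀ i < m, ∀ f : X ⟶ (T.H i)⟦(1 : ℤ)⟧, f = 0) (i : ℤ) (him : i ≤ m) :
    ∀ f : X ⟶ (T.F i)⟦(1 : ℤ)⟧, f = 0 := by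
  revert i
  refine T.induct _ (fun i hi _ f => ?_) ?_
  · exact ((shiftFunctor C (1 : ℤ)).map_isZero (T.zero i hi)).eq_of_tgt _ _
  · intro i hi him f
    obtain ⟨b, hb⟩ := ex_co₂_shift (T.dist i) 1 f (hH i (by omega) _)
    rw [hb, hi (by omega) b, zero_comp]

/-- Finiteness and vanishing hypotheses on the factors of two towers. -/
structure Good (k : Type*) [Field k] [Linear k C] (T S : Tower t) : Prop where
  fin : ∀ i j, Module.Finite k (T.H i ⟶ S.H j)
  fin1 : ∀ i j, Module.Finite k (T.H i ⟶ (S.H j)⟦(1 : ℤ)⟧)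
  van : ∀ i j, j + 2 ≤ i → ∀ f : T.H i ⟶ (S.H j)⟦(1 : ℤ)⟧, f = 0

/-- The truncation inequality, one step. -/
lemma step {T S : Tower t} (hg : Good k T S) (l : ℤ) :
    finrank k (T.F (l + 1) ⟶ S.F (l + 1)) + finrank k (T.H (l + 1) ⟶ S.H (l + 1)) +
      finrank k (T.H (l + 1) ⟶ S.H l) ≤
    finrank k (T.F (l + 1 + 1) ⟶ S.F (l + 1 + 1)) +
      finrank k (T.H (l + 1) ⟶ (S.H l)⟦(1 : ℤ)⟧) := by
  have h1 : ∀ i j, Module.Finite k (T.H i ⟶ S.F j) := fun i j =>
    S.finite_right (T.H i) (hg.fin i) j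
  have h2 : ∀ i j, Module.Finite k (T.H i ⟶ (S.F j)⟦(1 : ℤ)⟧) := fun i j =>
    S.finite_right_shift (T.H i) (hg.fin1 i) j
  have h3 : ∀ i j, Module.Finite k (T.F i ⟶ S.F j) := fun i j =>
    T.finite_left (S.F j) (fun l => h1 l j) i
  have h4 : ∀ i j, Module.Finite k (T.F i ⟶ S.H j) := fun i j =>
    T.finite_left (S.H j) (fun l => hg.fin l j) i
  refine trunc_step t (l + 1) (T.dist (l + 1)) (S.dist (l + 1)) (S.dist l)
    (T.le (l + 1)) (T.leH (l + 1)) (S.geH (l + 1)) ?_ ?_ (h3 _ _) (h3 _ _) (h4 _ _)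
    (hg.fin _ _) (h2 _ _) (h3 _ _) (h1 _ _) (hg.fin1 _ _)
  · rw [add_sub_cancel_right]
    exact S.geH l
  · exact S.van_right (T.H (l + 1)) l (fun i hi => hg.van (l + 1) i (by omega)) l le_rfl

end Tower

end

end FanoDim
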